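import Pool.Agent.H646.CR.Stm

set_option autoImplicit false
set_option linter.unusedSectionVars false
set_option linter.style.haveILetI false

namespace Pool.Agent.H154.CRclosed

open Pool.Agent.H646.CR
open MeasureTheory ProbabilityTheory Set Topology TopologicalSpace Filter
open scoped ENNReal BoundedContinuousFunction

section general

variable {Z : Type} [TopologicalSpace Z] [CompactSpace Z] [MetrizableSpace Z] [MeasurableSpace Z]
  [BorelSpace Z]

theorem compact_pm (Z : Type) [TopologicalSpace Z] [CompactSpace Z] [MetrizableSpace Z]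
    [MeasurableSpace Z] [BorelSpace Z] : CompactSpace (ProbabilityMeasure Z) := inferInstance

/-- Null open events are a closed condition. -/
theorem closed_null (h : S_usc) {U : Set Z} (hU : IsOpen U) :
    IsClosed {η : ProbabilityMeasure Z | (η : Measure Z) U = 0} := by
  have h1 := h Z Uᶜ 1 hU.isClosed_compl
  have h2 : {η : ProbabilityMeasure Z | (η : Measure Z) U = 0}
      = {η : ProbabilityMeasure Z | 1 ≤ (η : Measure Z) Uᶜ} := by
    ext η
    simp only [mem_ofPred_eq]
    constructor
    · intro h3
      exact le_of_eq ((prob_compl_eq_one_iff hU.measurableSet).2 h3).symm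
    · intro h3
      exact (prob_compl_eq_one_iff hU.measurableSet).1 (le_antisymm prob_le_one h3)
  rw [h2]
  exact h1

theorem cont_ind {A : Set Z} (hA : IsClopen A) {f : Z → ℝ} (hf : Continuous f) :
    Continuous (A.indicator f) := by
  apply continuous_indicator
  · intro a ha
    rw [hA.frontier_eq] at ha
    exact absurd ha (notMem_empty a)
  · exact hf.continuousOn

theorem cont_int {f : Z → ℝ} (hf : Continuous f) :
    Continuous fun η : ProbabilityMeasure Z => ∫ x, f x ∂(η : Measure Z) :=
  ProbabilityMeasure.continuous_integral_continuousMap (⟨f, hf⟩ : C(Z, ℝ))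

/-- Partial invariance is a closed condition. -/
theorem closed_inv {A B : Set Z} (hA : IsClopen A) (hB : IsClopen B) {τ : Z → Z}
    (hτ : Continuous τ) :
    IsClosed {η : ProbabilityMeasure Z | ∀ D : Set Z, MeasurableSet D →
      (η : Measure Z) (A ∩ τ ⁻¹' D) = (η : Measure Z) (B ∩ D)} := by
  have h2 : {η : ProbabilityMeasure Z | ∀ D : Set Z, MeasurableSet D →
      (η : Measure Z) (A ∩ τ ⁻¹' D) = (η : Measure Z) (B ∩ D)}
      = ⋂ f : Z →ᵇ ℝ, {η : ProbabilityMeasure Z |
          ∫ x, A.indicator (fun z => f (τ z)) x ∂(η : Measure Z)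
            = ∫ x, B.indicator (fun z => f z) x ∂(η : Measure Z)} := by
    ext η
    simp only [mem_ofPred_eq, mem_iInter]
    have e1 : ∀ f : Z →ᵇ ℝ, ∫ x, A.indicator (fun z => f (τ z)) x ∂(η : Measure Z)
        = ∫ y, f y ∂(((η : Measure Z).restrict A).map τ) := by
      intro f
      rw [integral_indicator hA.isOpen.measurableSet, integral_map hτ.measurable.aemeasurable
        f.continuous.aestronglyMeasurable]
    have e2 : ∀ f : Z →ᵇ ℝ, ∫ x, B.indicator (fun z => f z) x ∂(η : Measure Z)
        = ∫ y, f y ∂((η : Measure Z).restrict B) := by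
      intro f
      rw [integral_indicator hB.isOpen.measurableSet]
    have e3 : (∀ D : Set Z, MeasurableSet D →
      (η : Measure Z) (A ∩ τ ⁻¹' D) = (η : Measure Z) (B ∩ D)) ↔
        ((η : Measure Z).restrict A).map τ = (η : Measure Z).restrict B := by
      constructor
      · intro h3
        ext D hD
        rw [Measure.map_apply hτ.measurable hD, Measure.restrict_apply (hτ.measurable hD),
          Measure.restrict_apply hD, inter_comm, h3 D hD, inter_comm]
      · intro h3 D hD
        have h4 : (((η : Measure Z).restrict A).map τ) D = ((η : Measure Z).restrict B) D := by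
          rw [h3]
        rw [Measure.map_apply hτ.measurable hD, Measure.restrict_apply (hτ.measurable hD),
          Measure.restrict_apply hD] at h4
        rw [inter_comm, h4, inter_comm]
    rw [e3]
    constructor
    · intro h3 f
      rw [e1, e2, h3]
    · intro h3
      haveI : IsFiniteMeasure (((η : Measure Z).restrict A).map τ) := by infer_instance
      apply ext_of_forall_integral_eq_of_IsFiniteMeasure
      intro f
      rw [← e1, ← e2, h3]
  rw [h2]
  apply isClosed_iInter
  intro f
  exact isClosed_eq (cont_int (cont_ind hA (f.continuous.comp hτ)))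
    (cont_int (cont_ind hB f.continuous))

end general

section sys

variable {G K : Type} [Group G] [Countable G] [TopologicalSpace K] [CompactSpace K]
  [MetrizableSpace K] [MeasurableSpace K] [BorelSpace K]
  [MulAction G (P × K)] [ContinuousConstSMul G (P × K)]

theorem clopen_lab (g u : G) (b : Bool) : IsClopen {ω : St G K | ω.2.2 g u = b} := by
  have hc : Continuous fun ω : St G K => ω.2.2 g u :=
    (continuous_apply u).comp ((continuous_apply g).comp (continuous_snd.comp continuous_snd))
  exact (isClopen_discrete {b}).preimage hc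

theorem clopen_lab2 (g u w : G) :
    IsClopen {ω : St G K | ω.2.2 g u = true ∧ ω.2.2 g w = true} :=
  (clopen_lab g u true).inter (clopen_lab g w true)

theorem cont_T (g u : G) : Continuous (T g u : St G K → St G K) := by
  unfold T shL
  refine Continuous.prodMk ?_ (Continuous.prodMk ?_ ?_)
  · exact (continuous_const_smul u).comp continuous_fst
  · exact (continuous_const_smul g).comp (continuous_fst.comp continuous_snd)
  · refine continuous_pi fun h => continuous_pi fun w => ?_
    exact (continuous_apply (w * u)).comp ((continuous_apply (h * g)).comp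
      (continuous_snd.comp continuous_snd))

theorem closed_FX (l : ℕ) (g : G) : IsClosed (FX l g : Set (St G K)) := by
  obtain ⟨N, hN⟩ : ∃ N : ℕ, ∀ x : P × K, |dn (P × K) l x| ≤ N := by
    obtain ⟨N, hN⟩ := exists_nat_ge ‖dn (P × K) l‖
    exact ⟨N, fun x => le_trans ((dn (P × K) l).norm_coe_le_norm x) hN⟩
  have h1 : (FX l g : Set (St G K)) = ⋃ m ∈ Finset.range (N + 2),
      {ω : St G K | |dn (P × K) l ω.1 - m| ≤ 1 / 4 ∧ ω.2.2 g (en G m) = true} := by
    ext ω
    simp only [FX, mem_ofPred_eq, mem_iUnion, Finset.mem_range, exists_prop]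
    constructor
    · rintro ⟨m, hm1, hm2⟩
      refine ⟨m, ?_, hm1, hm2⟩
      have h2 := hN ω.1
      have h3 := (abs_le.1 hm1).1
      have h4 := (abs_le.1 h2).2
      have h5 : (m : ℝ) < ((N + 2 : ℕ) : ℝ) := by
        push_cast
        linarith
      exact_mod_cast h5
    · rintro ⟨m, -, hm1, hm2⟩
      exact ⟨m, hm1, hm2⟩
  rw [h1]
  refine isClosed_biUnion_finset fun m _ => ?_
  have h2 : Continuous fun ω : St G K => |dn (P × K) l ω.1 - (m : ℝ)| :=
    (((dn (P × K) l).continuous.comp continuous_fst).sub continuous_const).abs
  exact IsClosed.inter (isClosed_le h2 continuous_const) (clopen_lab g (en G m) true).isClosed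

theorem closed_HX {q : P × K → Bool} (hq : Continuous q) (l : ℕ) :
    IsClosed (HX q l : Set (St G K)) := by
  refine isClosed_le ?_ continuous_const
  have hb : Continuous b2r := continuous_of_discreteTopology
  exact (((dn (P × K) l).continuous.comp continuous_fst).sub
    (hb.comp (hq.comp (continuous_fst.comp continuous_snd)))).abs

theorem prob_mu (lam : Measure K) [IsProbabilityMeasure lam] (s : P) :
    IsProbabilityMeasure (mu lam s) := by
  unfold mu; infer_instance

/-- The fibre measure as a probability measure. -/
noncomputable def muP (lam : Measure K) [IsProbabilityMeasure lam] (s : P) :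
    ProbabilityMeasure (P × K) := ⟨mu lam s, prob_mu lam s⟩

theorem cont_muP (lam : Measure K) [IsProbabilityMeasure lam] : Continuous (muP lam) := by
  rw [ProbabilityMeasure.continuous_iff_forall_continuous_integral]
  intro f
  have e : ∀ s : P, ∫ ω, f ω ∂((muP lam s : ProbabilityMeasure (P × K)) : Measure (P × K))
      = ∫ k, f (s, k) ∂lam := by
    intro s
    change ∫ ω, f ω ∂(mu lam s) = _
    unfold mu
    rw [Measure.dirac_prod, integral_map (measurable_prodMk_left).aemeasurable
      f.continuous.aestronglyMeasurable]
  simp_rw [e]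
  refine continuous_of_dominated (bound := fun _ => ‖f‖) ?_ ?_ ?_ ?_
  · intro s
    exact (f.continuous.comp (Continuous.prodMk_right s)).aestronglyMeasurable
  · intro s
    exact Eventually.of_forall fun k => f.norm_coe_le_norm (s, k)
  · exact integrable_const _
  · exact Eventually.of_forall fun k => f.continuous.comp (Continuous.prodMk_left k)

end sys

theorem holds (h : S_usc) : S_closed := by
  intro G K _ _ _ _ _ _ _ _ _ lam q c Q X0 hsys l l' t
  haveI := hsys.prob
  haveI hcp : CompactSpace (ProbabilityMeasure (St G K)) := compact_pm (St G K)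
  set Good : Set (P × ProbabilityMeasure (St G K)) :=
    {p | RelW lam q Q l l' t p.1 (p.2 : Measure (St G K))} with hGood
  have hG : IsClosed Good := by
    have e : Good =
        ((Prod.snd ⁻¹' {η : ProbabilityMeasure (St G K) |
            (η : Measure (St G K)) {ω | ω.2.2 1 1 = false} = 0}) ∩
        ((Prod.snd ⁻¹' (⋂ (g : G) (u : G) (w : G) (_ : u ≠ w),
          {η : ProbabilityMeasure (St G K) |
            (η : Measure (St G K)) {ω | ω.2.2 g u = true ∧ ω.2.2 g w = true} = 0})) ∩
        ((Prod.snd ⁻¹' (⋂ (g : G) (u : G),
          {η : ProbabilityMeasure (St G K) | ∀ D : Set (St G K), MeasurableSet D →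
            (η : Measure (St G K)) ({ω | ω.2.2 g u = true} ∩ T g u ⁻¹' D)
              = (η : Measure (St G K)) ({ω | ω.2.2 g⁻¹ u⁻¹ = true} ∩ D)})) ∩
        ({p | p.2.map (continuous_fst.measurable.aemeasurable :
              AEMeasurable (Prod.fst : St G K → P × K) (p.2 : Measure (St G K)))
            = muP lam p.1} ∩
        ((Prod.snd ⁻¹' {η : ProbabilityMeasure (St G K) |
            (η : Measure (St G K)) {ω | ω.2.1.1 ≠ t} = 0}) ∩
        ((Prod.snd ⁻¹' (⋂ i : Fin 4, {η : ProbabilityMeasure (St G K) |
            ENNReal.ofReal (1 - 1 / 10 ^ 6) ≤ (η : Measure (St G K)) (FX (l i) (Q i))})) ∩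
        (Prod.snd ⁻¹' {η : ProbabilityMeasure (St G K) |
            ENNReal.ofReal (1 - 1 / 10 ^ 6) ≤ (η : Measure (St G K)) (HX q l')}))))))) := by
      ext ⟨s, η⟩
      simp only [hGood, mem_ofPred_eq, mem_inter_iff, mem_preimage, mem_iInter]
      constructor
      · intro hr
        refine ⟨hr.w0.lab_one, hr.w0.lab_uniq, hr.w0.inv, ?_, hr.par, hr.gen, hr.dig⟩
        apply Subtype.ext
        exact hr.marg
      · rintro ⟨h1, h2, h3, h4, h5, h6, h7⟩
        refine ⟨⟨inferInstance, h1, h2, h3⟩, ?_, h5, h6, h7⟩
        exact congrArg Subtype.val h4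
    rw [e]
    refine IsClosed.inter ?_ (IsClosed.inter ?_ (IsClosed.inter ?_ (IsClosed.inter ?_
      (IsClosed.inter ?_ (IsClosed.inter ?_ ?_)))))
    · exact (closed_null h (clopen_lab 1 1 false).isOpen).preimage continuous_snd
    · refine IsClosed.preimage continuous_snd ?_
      refine isClosed_iInter fun g => isClosed_iInter fun u => isClosed_iInter fun w =>
        isClosed_iInter fun _ => ?_
      exact closed_null h (clopen_lab2 g u w).isOpen
    · refine IsClosed.preimage continuous_snd ?_
      refine isClosed_iInter fun g => isClosed_iInter fun u => ?_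
      exact closed_inv (clopen_lab g u true) (clopen_lab g⁻¹ u⁻¹ true) (cont_T g u)
    · refine isClosed_eq ?_ ((cont_muP lam).comp continuous_fst)
      exact (ProbabilityMeasure.continuous_map continuous_fst).comp continuous_snd
    · refine IsClosed.preimage continuous_snd ?_
      refine closed_null h ?_
      have h1 : IsClosed {ω : St G K | ω.2.1.1 = t} :=
        isClosed_eq (continuous_fst.comp (continuous_fst.comp continuous_snd)) continuous_const
      exact h1.isOpen_compl
    · refine IsClosed.preimage continuous_snd ?_
      exact isClosed_iInter fun i => h (St G K) _ _ (closed_FX (l i) (Q i))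
    · exact (h (St G K) _ _ (closed_HX hsys.q_cont l')).preimage continuous_snd
  have hs : {s | Rel lam q Q l l' t s} = Prod.fst '' Good := by
    ext s
    simp only [mem_ofPred_eq, mem_image, Prod.exists, exists_and_right, exists_eq_right, hGood]
    constructor
    · rintro ⟨η, hη⟩
      exact ⟨⟨η, hη.w0.prob⟩, hη⟩
    · rintro ⟨η, hη⟩
      exact ⟨η, hη⟩
  rw [hs]
  exact (hG.isCompact.image continuous_fst).isClosed

end Pool.Agent.H154.CRclosed
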