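import Pool.Agent.H979.DE.Stm

set_option autoImplicit false

/-!
# `S_ZINF` (subtask of helper979): the walk in `ℤ^d` with infinitely many record times is trapped
-/

open MeasureTheory Finset Filter Pool.Agent.H41.Derrw Pool.Agent.H979.DE
open scoped ENNReal

namespace Pool.Agent.H154

theorem trapped_ctb {V : Type} [Countable V] (G : SimpleGraph V) : (Trapped G).Countable := by
  have : Trapped G ⊆ ⋃ (m : ℕ+) (N : ℕ), Set.range fun q : (Fin N → V) × (ZMod m → V) × ZMod m =>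
      fun k => if h : k < N then q.1 ⟨k, h⟩ else q.2.1 (q.2.2 + ((k - N : ℕ) : ZMod m)) := by
    rintro w ⟨m, u, hc, N, i, h⟩
    refine Set.mem_iUnion₂.2 ⟨⟨m, by have := hc.1; omega⟩, N, ⟨fun k => w k, u, i⟩, funext fun k => ?_⟩
    dsimp only
    split_ifs with hk
    · rfl
    · have h1 := h (k - N)
      rw [show N + (k - N) = k by omega] at h1
      exact h1.symm
  exact (Set.countable_iUnion fun m => Set.countable_iUnion fun N => Set.countable_range _).mono this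

/-- general form of the argument -/
theorem zinf_gen (h2 : S_FOLLOW) (h3 : S_KEY) (h4 : S_LEVY) (h5 : S_VAL) (h7 : S_IRG) (h8 : S_PG) (h9 : S_H)
    (V : Type) [DecidableEq V] [Countable V] [MeasurableSpace V] [DiscreteMeasurableSpace V] (G : SimpleGraph V)
    [G.LocallyFinite] (γ : ℝ) (v : V) (P : Measure (ℕ → V)) (hγ : 1 < γ) (hP : IsLaw G γ v P)
    (hG : ∀ x, ∃ y, G.Adj x y) (D : ℕ) (hD : 0 < D) (hdeg : ∀ x, G.degree x ≤ D) (R : (ℕ → V) → ℕ → Prop)
    (hR : ∀ (x : ℕ → V) (n : ℕ), Val G x n → R x n → ∃ y : ℕ → V, (∀ k ≤ n, y k = x k) ∧ Val G y (n + 4) ∧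
      (∀ j, n ≤ j → j < n + 4 → ¬ Good G y j) ∧ Good G y (n + 4) ∧
      ∃ B : Finset V, B.card = 4 ∧ ∀ w ∈ cyl y (n + 4) ∩ Ev B (n + 4), w ∈ Trapped G) :
    ∀ᵐ w ∂P, (∃ᶠ n in atTop, R w n) → w ∈ Trapped G := by
  have hprob : IsProbabilityMeasure P := hP.1
  obtain ⟨hs, hp⟩ := h8.1 γ D hγ hD
  obtain ⟨H, hm, hH, hstep⟩ := h9 (pg γ D) hs hp
  have hmeas : MeasurableSet (Trapped G) := (trapped_ctb G).measurableSet
  have hH0 : 0 < H 0 := (hH 0).1
  have hε : 0 < ENNReal.ofReal (H 0 ^ 4) * ENNReal.ofReal ((1 / (D : ℝ)) ^ 4) := by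
    have hD' : (0 : ℝ) < D := by exact_mod_cast hD
    exact ENNReal.mul_pos (ENNReal.ofReal_pos.2 (by positivity)).ne' (ENNReal.ofReal_pos.2 (by positivity)).ne'
  have key : ∀ w n, (Val G w n ∧ R w n) →
      (ENNReal.ofReal (H 0 ^ 4) * ENNReal.ofReal ((1 / (D : ℝ)) ^ 4)) * P (cyl w n) ≤
        P (cyl w n ∩ Trapped G) := by
    rintro w n ⟨hv, hr⟩
    obtain ⟨y, hy, hyv, hng, hg, B, hB, hT⟩ := hR w n hv hr
    have k1 := h2 V G γ v P hP D y n (n + 4) hD (by omega) hyv (fun j h1 h2 => ⟨hng j h1 h2, hdeg _⟩)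
    have k2 := h3 V G γ v P hG hP B (pg γ D) H hp hm hH hstep
      (fun w n _ _ hgd => h7 V G γ w n D (by linarith) hD (hdeg _) hgd) y (n + 4) hyv hg
    rw [hB] at k2
    have e1 : cyl y n = cyl w n := by
      ext z
      constructor
      · intro hz k hk
        rw [hz k hk, hy k hk]
      · intro hz k hk
        rw [hz k hk, hy k hk]
    have e2 : n + 4 - n = 4 := by omega
    rw [e1, e2] at k1
    have k3 : P (cyl y (n + 4) ∩ Ev B (n + 4)) ≤ P (cyl w n ∩ Trapped G) := by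
      apply measure_mono
      intro z hz
      refine ⟨?_, hT z hz⟩
      rw [← e1]
      intro k hk
      exact hz.1 k (by omega)
    calc (ENNReal.ofReal (H 0 ^ 4) * ENNReal.ofReal ((1 / (D : ℝ)) ^ 4)) * P (cyl w n)
        = ENNReal.ofReal (H 0 ^ 4) * (ENNReal.ofReal ((1 / (D : ℝ)) ^ 4) * P (cyl w n)) := mul_assoc _ _ _
      _ ≤ ENNReal.ofReal (H 0 ^ 4) * P (cyl y (n + 4)) := mul_le_mul_right k1 _
      _ ≤ P (cyl y (n + 4) ∩ Ev B (n + 4)) := k2
      _ ≤ P (cyl w n ∩ Trapped G) := k3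
  have l1 := h4 V P (Trapped G) hmeas _ hε (fun w n => Val G w n ∧ R w n) key
  have l2 := h5 V G γ v P hP
  filter_upwards [l1, l2] with w w1 w2 w3
  exact w1 (w3.mono fun n hn => ⟨w2.2 n, hn⟩)

/-- **`S_ZINF`** -/
theorem de_zinf (h1 : S_SQ) (h2 : S_FOLLOW) (h3 : S_KEY) (h4 : S_LEVY) (h5 : S_VAL) (h6 : S_ZDEG) (h7 : S_IRG)
    (h8 : S_PG) (h9 : S_H) : S_ZINF := by
  intro d _ _ γ v P hd hγ hP
  have hG : ∀ x, ∃ y, (Zd d).Adj x y := by
    intro x
    have h := (h6 d hd x).1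
    have h' : 0 < (Zd d).degree x := by omega
    exact (SimpleGraph.degree_pos_iff_exists_adj (Zd d) x).1 h'
  exact zinf_gen h2 h3 h4 h5 h7 h8 h9 _ (Zd d) γ v P hγ hP hG (3 ^ d) (by positivity) (fun x => (h6 d hd x).2)
    (fun w n => Rec w n) (h1 d hd)

end Pool.Agent.H154
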