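import Pool.Agent.H316.EM.Stm2
import Mathlib

set_option autoImplicit false

namespace Pool.Agent.H154.EMC

open Pool.Agent.H316.EM

open scoped commutatorElement

/-! stability of `AA` (from helper353's `S_AAUN`) -/

theorem tA_symm_apply (x : KK) : (tA⁻¹ : Au KK) x = (rK th).symm (algebraMap FB KK (ck 0) * x) := by
  have h : tA ((rK th).symm (algebraMap FB KK (ck 0) * x)) = x := by
    rw [tA_apply, RingEquiv.apply_symm_apply, ← mul_assoc, inv_mul_cancel₀ (ck_ne 0), one_mul]
  conv_lhs => rw [← h]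
  exact (LinearEquiv.symm_apply_apply tA _)

theorem tA_inv_FBK : ∀ y ∈ FBK, (tA⁻¹ : Au KK) y ∈ FBK := by
  intro y hy
  obtain ⟨z, rfl⟩ := (mem_FBK y).1 hy
  rw [tA_symm_apply, ← map_mul, mem_FBK]
  refine ⟨(rF th).symm (ck 0 * z), ?_⟩
  apply (rK th).injective
  rw [rK_algebraMap, RingEquiv.apply_symm_apply, RingEquiv.apply_symm_apply]

theorem conj_mB (b : B) : tA * mB b * tA⁻¹ = mB (th b) := by
  rw [mul_inv_eq_iff_eq_mul]
  ext x
  show tA (mB b x) = mB (th b) (tA x)
  rw [tA_apply, mB_apply, mB_apply, tA_apply, map_mul, rK_algebraMap, rF_eb]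
  ring

theorem mB_FBK (b : B) : ∀ y ∈ FBK, mB b y ∈ FBK := by
  intro y hy
  obtain ⟨z, rfl⟩ := (mem_FBK y).1 hy
  rw [mB_apply, ← map_mul, mem_FBK]
  exact ⟨_, rfl⟩

theorem FBK_mono : Monotone (fun n : ℕ => FBK.map ((tA ^ n : Au KK) : KK →ₗ[ZMod 2] KK)) := by
  apply monotone_nat_of_le_succ
  intro n x hx
  obtain ⟨y, hy, rfl⟩ := Submodule.mem_map.1 hx
  refine Submodule.mem_map.2 ⟨(tA⁻¹ : Au KK) y, tA_inv_FBK y hy, ?_⟩
  show (tA ^ (n + 1)) ((tA⁻¹ : Au KK) y) = (tA ^ n) y
  rw [← LinearEquiv.mul_apply, pow_succ, mul_inv_cancel_right]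

theorem mem_AA (x : KK) : x ∈ AA ↔ ∃ n : ℕ, ∃ y ∈ FBK, x = (tA ^ n) y := by
  unfold AA
  rw [Submodule.mem_iSup_of_directed _ FBK_mono.directed_le]
  constructor
  · rintro ⟨n, hn⟩
    obtain ⟨y, hy, rfl⟩ := Submodule.mem_map.1 hn
    exact ⟨n, y, hy, rfl⟩
  · rintro ⟨n, y, hy, rfl⟩
    exact ⟨n, Submodule.mem_map.2 ⟨y, hy, rfl⟩⟩

theorem conj_pow_mB (n : ℕ) (b : B) : tA ^ n * mB b = mB ((th ^ n) b) * tA ^ n := by
  induction n with
  | zero => simp
  | succ n ih =>
    have h : tA * mB ((th ^ n) b) = mB (th ((th ^ n) b)) * tA := by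
      rw [← conj_mB, inv_mul_cancel_right]
    rw [pow_succ', mul_assoc, ih, ← mul_assoc, h, mul_assoc]
    rw [pow_succ' th, MulAut.mul_apply]

theorem AA_mB (b : B) (a : KK) (ha : a ∈ AA) : mB b a ∈ AA := by
  obtain ⟨n, y, hy, rfl⟩ := (mem_AA a).1 ha
  rw [mem_AA]
  refine ⟨n, mB ((th ^ n)⁻¹ b) y, mB_FBK _ y hy, ?_⟩
  rw [← LinearEquiv.mul_apply, ← LinearEquiv.mul_apply, conj_pow_mB]
  congr 2
  rw [← MulAut.mul_apply, mul_inv_cancel, MulAut.one_apply]

theorem AA_tA (a : KK) : a ∈ AA ↔ tA a ∈ AA := by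
  constructor
  · intro ha
    obtain ⟨n, y, hy, rfl⟩ := (mem_AA a).1 ha
    rw [mem_AA]
    exact ⟨n + 1, y, hy, by rw [pow_succ', LinearEquiv.mul_apply]⟩
  · intro ha
    obtain ⟨n, y, hy, h⟩ := (mem_AA _).1 ha
    rw [mem_AA]
    have h1 : a = (tA⁻¹ : Au KK) (tA a) := (LinearEquiv.symm_apply_apply tA a).symm
    rcases n with _ | n
    · refine ⟨0, (tA⁻¹ : Au KK) y, tA_inv_FBK y hy, ?_⟩
      rw [h1, h]
      rfl
    · refine ⟨n, y, hy, ?_⟩
      rw [h1, h, pow_succ', LinearEquiv.mul_apply]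
      exact LinearEquiv.symm_apply_apply tA _

/-! the derived subgroup -/

section
variable {M : Type} [Group M]

theorem mem_comm_of (φ : MulAut M) {x : M} (hx : x ∈ commutator M) : φ x ∈ commutator M := by
  have h : (commutator M).map φ.toMonoidHom ≤ commutator M :=
    (Subgroup.characteristic_iff_map_le.1 inferInstance) φ
  exact h (Subgroup.mem_map_of_mem _ hx)

theorem comm_of_der (h : derivedSeries M 2 = ⊥) :
    ∀ x ∈ commutator M, ∀ y ∈ commutator M, x * y = y * x := by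
  intro x hx y hy
  have h2 : ⁅commutator M, commutator M⁆ = derivedSeries M 2 := by
    rw [derivedSeries_succ, derivedSeries_one]
  have h3 := Subgroup.commutator_mem_commutator hx hy
  rw [h2, h, Subgroup.mem_bot] at h3
  exact commutatorElement_eq_one_iff_mul_comm.1 h3

/-- the derived subgroup is a commutative group -/
@[reducible] def cg (hc : ∀ x ∈ commutator M, ∀ y ∈ commutator M, x * y = y * x) :
    CommGroup (commutator M) :=
  { (inferInstance : Group (commutator M)) with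
    mul_comm := fun a b => Subtype.ext (hc a.1 a.2 b.1 b.2) }

end

section
variable (M : Type) [Group M] (hc : ∀ x ∈ commutator M, ∀ y ∈ commutator M, x * y = y * x)

theorem main1 (H : S_NILC) (hMK : S_MK) (hNIL : S_NIL) (hFGN : S_FGN) [Group.FG M]
    (D : Act M) (A₁ A₂ : Submodule (ZMod 2) KK)
    (h1 : ∀ a, a ∈ A₁ ↔ a ∈ AA ∧ ∀ x, D.ia a x * x⁻¹ ∈ commutator M) (hF : Fi A₁ AA)
    (h2 : ∀ a, a ∈ A₂ ↔ a ∈ A₁ ∧ ∀ x ∈ commutator M, D.ia a x = x) (hnF : ¬ Fi A₂ AA)
    (hc : ∀ x ∈ commutator M, ∀ y ∈ commutator M, x * y = y * x) :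
    ∃ (V : Type) (_ : AddCommGroup V) (_ : Module (ZMod 2) V), Nonempty (Dat 1 V) := by
  classical
  let _ : CommGroup (commutator M) := cg hc
  let N : Type := Additive (commutator M)
  let r : MulAut M →* (N ≃ₗ[ℤ] N) :=
    { toFun := fun φ => AddEquiv.toIntLinearEquiv
        { toFun := fun n => Additive.ofMul ⟨φ (Additive.toMul n).1, mem_comm_of φ (Additive.toMul n).2⟩
          invFun := fun n => Additive.ofMul ⟨φ⁻¹ (Additive.toMul n).1, mem_comm_of φ⁻¹ (Additive.toMul n).2⟩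
          left_inv := by
            intro n
            apply Additive.toMul.injective
            apply Subtype.ext
            exact φ.symm_apply_apply _
          right_inv := by
            intro n
            apply Additive.toMul.injective
            apply Subtype.ext
            exact φ.apply_symm_apply _
          map_add' := by
            intro n n'
            apply Additive.toMul.injective
            apply Subtype.ext
            exact map_mul φ _ _ }
      map_one' := by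
        apply LinearEquiv.ext
        intro n
        rfl
      map_mul' := by
        intro φ ψ
        apply LinearEquiv.ext
        intro n
        rfl }
  have rap : ∀ (φ : MulAut M) (n : N), (Additive.toMul (r φ n)).1 = φ (Additive.toMul n).1 := fun _ _ => rfl
  have req : ∀ (φ ψ : MulAut M), (∀ x ∈ commutator M, φ x = ψ x) → r φ = r ψ := by
    intro φ ψ h
    apply LinearEquiv.ext
    intro n
    apply Additive.toMul.injective
    apply Subtype.ext
    rw [rap, rap]
    exact h _ (Additive.toMul n).2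
  let c0 : (M ⧸ commutator M) →* (N ≃ₗ[ℤ] N) := QuotientGroup.lift (commutator M) (r.comp MulAut.conj) (by
    intro x hx
    rw [MonoidHom.mem_ker, MonoidHom.comp_apply, ← map_one r]
    apply req
    intro y hy
    rw [MulAut.conj_apply, MulAut.one_apply, hc x hx y hy, mul_inv_cancel_right])
  let c : Abelianization M →* (N ≃ₗ[ℤ] N) := c0
  have hcm : ∀ m : M, c (Abelianization.of m) = r (MulAut.conj m) := fun m => rfl
  have hsur : ∀ l : Abelianization M, ∃ m : M, l = Abelianization.of m := by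
    intro l
    obtain ⟨m, hm⟩ := QuotientGroup.mk_surjective l
    exact ⟨m, hm.symm⟩
  have hconj : ∀ (φ : MulAut M) (m : M), φ * MulAut.conj m * φ⁻¹ = MulAut.conj (φ m) := by
    intro φ m
    ext x
    rw [MulAut.mul_apply, MulAut.mul_apply, MulAut.conj_apply, MulAut.conj_apply, map_mul, map_mul, map_inv,
      ← MulAut.mul_apply, mul_inv_cancel, MulAut.one_apply]
  have : Group.FG (Abelianization M) :=
    Group.fg_of_surjective (f := (Abelianization.of : M →* Abelianization M)) (fun l => by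
      obtain ⟨m, hm⟩ := hsur l
      exact ⟨m, hm.symm⟩)
  refine H hMK hNIL N (Abelianization M) c (r.comp D.β) (r D.t) ?_ ?_ ?_ ?_ ?_ A₁ A₂ (fun a => r (D.ia a))
    (fun a ha => ((h1 a).1 ha).1) hF ?_ ?_ ?_ ?_ ?_ ?_ ?_ hnF
  · intro b
    rw [MonoidHom.comp_apply, MonoidHom.comp_apply, ← map_mul, ← map_inv, ← map_mul, D.tβ]
  · intro b l
    obtain ⟨m, rfl⟩ := hsur l
    refine ⟨Abelianization.of (D.β b m), ?_⟩
    rw [hcm, hcm, MonoidHom.comp_apply, ← map_mul, ← map_inv, ← map_mul, hconj]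
  · intro l
    obtain ⟨m, rfl⟩ := hsur l
    refine ⟨Abelianization.of (D.t m), ?_⟩
    rw [hcm, hcm, ← map_mul, ← map_inv, ← map_mul, hconj]
  · intro l
    obtain ⟨m, rfl⟩ := hsur l
    refine ⟨Abelianization.of (D.t⁻¹ m), ?_⟩
    rw [hcm, hcm, ← map_inv, ← map_mul, ← map_mul]
    have := hconj D.t⁻¹ m
    rw [inv_inv] at this
    rw [this]
  · obtain ⟨S, hS⟩ := hFGN M
    have hSm : ∀ s ∈ S, s ∈ commutator M := by
      intro s hs
      rw [hS]
      apply Subgroup.subset_closure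
      exact ⟨1, s, hs, by simp⟩
    refine ⟨S.attach.image (fun s => (Additive.ofMul ⟨s.1, hSm s.1 s.2⟩ : N)), ?_⟩
    rw [eq_top_iff]
    rintro n -
    have key : ∀ x ∈ Subgroup.closure {x : M | ∃ m : M, ∃ s ∈ S, x = m * s * m⁻¹},
        ∃ h : x ∈ commutator M, (Additive.ofMul ⟨x, h⟩ : N) ∈ AddSubgroup.closure {x : N | ∃ l,
          ∃ s ∈ S.attach.image (fun s => (Additive.ofMul ⟨s.1, hSm s.1 s.2⟩ : N)), x = c l s} := by
      intro x hx
      induction hx using Subgroup.closure_induction with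
      | mem x hx =>
        obtain ⟨m, s, hs, rfl⟩ := hx
        refine ⟨(inferInstance : (commutator M).Normal).conj_mem s (hSm s hs) m, ?_⟩
        apply AddSubgroup.subset_closure
        refine ⟨Abelianization.of m, Additive.ofMul ⟨s, hSm s hs⟩, ?_, ?_⟩
        · rw [Finset.mem_image]
          exact ⟨⟨s, hs⟩, Finset.mem_attach _ _, rfl⟩
        · rw [hcm]
          apply Additive.toMul.injective
          apply Subtype.ext
          rw [rap]
          rfl
      | one => exact ⟨Subgroup.one_mem _, AddSubgroup.zero_mem _⟩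
      | mul x y hx hy ihx ihy =>
        obtain ⟨hx1, hx2⟩ := ihx
        obtain ⟨hy1, hy2⟩ := ihy
        exact ⟨Subgroup.mul_mem _ hx1 hy1, AddSubgroup.add_mem _ hx2 hy2⟩
      | inv x hx ihx =>
        obtain ⟨hx1, hx2⟩ := ihx
        exact ⟨Subgroup.inv_mem _ hx1, AddSubgroup.neg_mem _ hx2⟩
    obtain ⟨h3, h4⟩ := key (Additive.toMul n).1 (by rw [← hS]; exact (Additive.toMul n).2)
    exact h4
  · intro b a ha
    obtain ⟨ha1, ha2⟩ := (h1 a).1 ha
    refine (h1 _).2 ⟨AA_mB b a ha1, ?_⟩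
    intro x
    rw [← D.hβ b a ha1]
    have h5 := mem_comm_of (D.β b) (ha2 ((D.β b)⁻¹ x))
    rw [map_mul, map_inv, ← MulAut.mul_apply _ (D.β b) (D.β b)⁻¹, mul_inv_cancel, MulAut.one_apply] at h5
    exact h5
  · intro a
    constructor
    · intro ha
      obtain ⟨ha1, ha2⟩ := (h1 a).1 ha
      refine (h1 _).2 ⟨(AA_tA a).1 ha1, ?_⟩
      intro x
      rw [← D.ht a ha1]
      have h5 := mem_comm_of (D.t) (ha2 ((D.t)⁻¹ x))
      rw [map_mul, map_inv, ← MulAut.mul_apply _ (D.t) (D.t)⁻¹, mul_inv_cancel, MulAut.one_apply] at h5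
      exact h5
    · intro ha
      obtain ⟨ha1, ha2⟩ := (h1 _).1 ha
      have ha3 := (AA_tA a).2 ha1
      refine (h1 _).2 ⟨ha3, ?_⟩
      intro x
      have h5 := mem_comm_of (D.t⁻¹) (ha2 (D.t x))
      rw [← D.ht a ha3, map_mul, map_inv, ← MulAut.mul_apply _ D.t⁻¹ (D.t), inv_mul_cancel, MulAut.one_apply,
        ← MulAut.mul_apply, ← MulAut.mul_apply] at h5
      have h6 : D.t⁻¹ * (D.t * D.ia a * D.t⁻¹) * D.t = D.ia a := by group
      rw [h6] at h5
      exact h5
  · intro a ha a' ha'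
    show r (D.ia (a + a')) = r (D.ia a) * r (D.ia a')
    rw [D.iadd a ((h1 a).1 ha).1 a' ((h1 a').1 ha').1, map_mul]
  · intro a ha l
    obtain ⟨m, rfl⟩ := hsur l
    show r (D.ia a) * c (Abelianization.of m) = c (Abelianization.of m) * r (D.ia a)
    rw [hcm, ← map_mul, ← map_mul]
    apply req
    intro x hx
    rw [MulAut.mul_apply, MulAut.mul_apply, MulAut.conj_apply, MulAut.conj_apply, map_mul, map_mul, map_inv]
    have hk := ((h1 a).1 ha).2 m
    have hy : m * D.ia a x * m⁻¹ ∈ commutator M :=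
      (inferInstance : (commutator M).Normal).conj_mem _ (mem_comm_of (D.ia a) hx) m
    have h7 := hc _ hk _ hy
    have h8 : D.ia a m = (D.ia a m * m⁻¹) * m := by group
    calc D.ia a m * D.ia a x * (D.ia a m)⁻¹
        = (D.ia a m * m⁻¹) * (m * D.ia a x * m⁻¹) * (D.ia a m * m⁻¹)⁻¹ := by group
      _ = (m * D.ia a x * m⁻¹) * (D.ia a m * m⁻¹) * (D.ia a m * m⁻¹)⁻¹ := by rw [h7]
      _ = m * D.ia a x * m⁻¹ := by group
  · intro b a ha
    show r (D.β b) * r (D.ia a) * (r (D.β b))⁻¹ = r (D.ia (mB b a))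
    rw [← D.hβ b a ((h1 a).1 ha).1, map_mul, map_mul, map_inv]
  · intro a ha
    show r D.t * r (D.ia a) * (r D.t)⁻¹ = r (D.ia (tA a))
    rw [← D.ht a ((h1 a).1 ha).1, map_mul, map_mul, map_inv]
  · intro a
    rw [h2]
    constructor
    · rintro ⟨ha, hx⟩
      refine ⟨ha, ?_⟩
      show r (D.ia a) = 1
      rw [← map_one r]
      exact req _ _ hx
    · rintro ⟨ha, hx⟩
      refine ⟨ha, ?_⟩
      intro x hxc
      have h9 := rap (D.ia a) (Additive.ofMul ⟨x, hxc⟩)
      have h10 : r (D.ia a) = 1 := hx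
      rw [h10] at h9
      exact h9.symm

end

end Pool.Agent.H154.EMC

namespace Pool.Agent.H154

open Pool.Agent.H316.EM

theorem em_cnj : Pool.Agent.H316.EM.S_CNJ := by
  intro H hMK hNIL hFGN M _ _ hder D A₁ A₂ h1 hF h2 hnF
  exact EMC.main1 M H hMK hNIL hFGN D A₁ A₂ h1 hF h2 hnF (EMC.comm_of_der hder)

end Pool.Agent.H154
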