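import Pool.Agent.H867.FT.Gen2
import Pool.Agent.H407.FT867LAT

set_option autoImplicit false

namespace Pool.Agent.H154.FTDSC

open Pool.Agent.H867.FT Matrix Pool.Agent.H407.FTLAT

/-- a generating family and a basis of the same size: the base change is invertible -/
theorem gen_det {P R : Type} [CommRing P] [CommRing R] [Algebra P R]
    (bs : Module.Basis (Fin 3) P R) (ω θ : R)
    (hgen : ∀ r : R, ∃ r₀ r₁ r₂ : P, r = algebraMap P R r₀ + r₁ • ω + r₂ • θ) :
    ∃ C : Matrix (Fin 3) (Fin 3) P, IsUnit C.det ∧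
      (bs : Fin 3 → R) = (![1, ω, θ] : Fin 3 → R) ᵥ* C.map (algebraMap P R) := by
  choose r₀ r₁ r₂ hr using hgen
  let C : Matrix (Fin 3) (Fin 3) P :=
    Matrix.of fun l k => ![r₀ (bs k), r₁ (bs k), r₂ (bs k)] l
  have h1 : (bs : Fin 3 → R) = (![1, ω, θ] : Fin 3 → R) ᵥ* C.map (algebraMap P R) := by
    funext k
    rw [Matrix.vecMul, dotProduct, Fin.sum_univ_three]
    show bs k = 1 * algebraMap P R (r₀ (bs k)) + ω * algebraMap P R (r₁ (bs k)) +
      θ * algebraMap P R (r₂ (bs k))
    conv_lhs => rw [hr (bs k)]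
    rw [Algebra.smul_def, Algebra.smul_def]
    ring
  refine ⟨C, ?_, h1⟩
  have h2 : (bs : Fin 3 → R) ᵥ* (bs.toMatrix ![1, ω, θ]).map (algebraMap P R) = ![1, ω, θ] :=
    Module.Basis.toMatrix_map_vecMul bs _
  have h3 : bs.toMatrix ![1, ω, θ] * C = 1 := by
    have h4 : (bs : Fin 3 → R) ᵥ* (bs.toMatrix ![1, ω, θ] * C).map (algebraMap P R) = bs := by
      rw [Matrix.map_mul, ← Matrix.vecMul_vecMul, h2, ← h1]
    ext l k
    have h5 := congrFun h4 k
    have h6 : ∑ l, (bs.toMatrix ![1, ω, θ] * C) l k • bs l = bs k := by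
      rw [← h5, Matrix.vecMul, dotProduct]
      refine Finset.sum_congr rfl fun l _ => ?_
      rw [Algebra.smul_def, mul_comm]
      rfl
    have h7 := congrArg (fun x => bs.repr x l) h6
    simp only [map_sum, map_smul, Finsupp.coe_finsetSum, Finset.sum_apply, Finsupp.coe_smul,
      Pi.smul_apply, Module.Basis.repr_self, smul_eq_mul] at h7
    rw [Finset.sum_eq_single l] at h7
    · rw [Finsupp.single_eq_same, mul_one] at h7
      rw [h7, Matrix.one_apply, Finsupp.single_apply]
      by_cases hkl : l = k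
      · rw [if_pos hkl, if_pos hkl.symm]
      · rw [if_neg hkl, if_neg (fun h => hkl h.symm)]
    · intro m _ hm
      rw [Finsupp.single_eq_of_ne (by exact fun h => hm h.symm), mul_zero]
    · intro h
      exact absurd (Finset.mem_univ l) h
  have h8 := congrArg Matrix.det h3
  rw [Matrix.det_mul, Matrix.det_one] at h8
  exact IsUnit.of_mul_eq_one_right _ h8

theorem dsc : S_DSC := by
  intro P R V L W K _ _ _ _ _ _ _ _ _ _ _ _ _ _ _ _ _ _ _ _ _ _ _ _ _ _ _ _ _ _ _ _ _ _
    bs bW ω θ π i j w₁ w₂ hgen hω hθ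
  obtain ⟨C, hC, hbs⟩ := gen_det bs ω θ hgen
  let e : Fin 3 → W := ![1, w₁, w₂]
  let D : Fin 3 → V := ![1, algebraMap P V π ^ i, algebraMap P V π ^ j]
  have hπK : algebraMap P K π = algebraMap V K (algebraMap P V π) :=
    IsScalarTower.algebraMap_apply P V K π
  have he : ∀ l, algebraMap R K ((![1, ω, θ] : Fin 3 → R) l) =
      algebraMap W K (e l) * algebraMap V K (D l) := by
    intro l
    fin_cases l
    · show algebraMap R K 1 = algebraMap W K 1 * algebraMap V K 1
      rw [map_one, map_one, map_one, one_mul]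
    · show algebraMap R K ω = algebraMap W K w₁ * algebraMap V K (algebraMap P V π ^ i)
      rw [hω, hπK, map_pow, mul_comm]
    · show algebraMap R K θ = algebraMap W K w₂ * algebraMap V K (algebraMap P V π ^ j)
      rw [hθ, hπK, map_pow, mul_comm]
  set A : Matrix (Fin 3) (Fin 3) V := bW.toMatrix e with hA
  have hbe : (bW : Fin 3 → W) ᵥ* A.map (algebraMap V W) = e :=
    Module.Basis.toMatrix_map_vecMul bW e
  have hd : Algebra.discr P bs = C.det ^ 2 * Algebra.discr P (![1, ω, θ] : Fin 3 → R) := by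
    rw [hbs, Algebra.discr_of_matrix_vecMul]
  refine ⟨A.det, (algebraMap P V C.det) ^ 2, (hC.map (algebraMap P V)).pow 2, ?_⟩
  apply IsFractionRing.injective V L
  rw [hd, map_mul, map_mul, ← IsScalarTower.algebraMap_apply P V L,
    ← IsScalarTower.algebraMap_apply P V L,
    ← discr_eq (F := L) (E := K) _ bs (![1, ω, θ] : Fin 3 → R)]
  have h1 : (fun l => algebraMap R K ((![1, ω, θ] : Fin 3 → R) l)) =
      (fun l => algebraMap W K (e l)) ᵥ*
        (Matrix.diagonal fun l => algebraMap V L (D l)).map (algebraMap L K) := by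
    funext l
    rw [Matrix.diagonal_map (map_zero _), Matrix.vecMul_diagonal, he l]
    show _ = _ * algebraMap L K (algebraMap V L (D l))
    rw [← IsScalarTower.algebraMap_apply V L K]
  rw [h1, Algebra.discr_of_matrix_vecMul, discr_eq (F := L) (E := K) _ bW e,
    Matrix.det_diagonal]
  have h2 : Algebra.discr V e = A.det ^ 2 * Algebra.discr V bW := by
    rw [← Algebra.discr_of_matrix_vecMul, hbe]
  have h3 : ∏ l, algebraMap V L (D l) = algebraMap V L (algebraMap P V π ^ (i + j)) := by
    rw [← map_prod]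
    congr 1
    rw [Fin.prod_univ_three]
    show 1 * algebraMap P V π ^ i * algebraMap P V π ^ j = _
    rw [one_mul, ← pow_add]
  rw [h2, h3, IsScalarTower.algebraMap_apply P V L]
  simp only [map_mul, map_pow]
  ring

end Pool.Agent.H154.FTDSC
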