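import Pool.Agent.H770.GS.TA

/-!
# TA-3: continuity, oddness and boundedness of `n3` (helper154, for helper770)
-/

set_option autoImplicit false

open MeasureTheory Set intervalIntegral

namespace Pool.Agent.H154.TA

open Pool.Agent.H770.GS
open Pool.Agent.Helper82.GC

theorem nLo_odd (r x : ℝ) : nLo r (-x) = -nLo r x := by
  unfold nLo
  by_cases h1 : 0 < x ∧ x ≤ 2 * r
  · have h2 : ¬ (0 < -x ∧ -x ≤ 2 * r) := fun h => by linarith [h.1, h1.1]
    have h3 : -x < 0 ∧ -(2 * r) ≤ -x := ⟨by linarith [h1.1], by linarith [h1.2]⟩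
    rw [if_neg h2, if_pos h3, if_pos h1, neg_neg]
  · by_cases h4 : x < 0 ∧ -(2 * r) ≤ x
    · have h5 : 0 < -x ∧ -x ≤ 2 * r := ⟨by linarith [h4.1], by linarith [h4.2]⟩
      rw [if_pos h5, if_neg h1, if_pos h4, neg_neg]
    · have h6 : ¬ (0 < -x ∧ -x ≤ 2 * r) := fun h => h4 ⟨by linarith [h.1], by linarith [h.2]⟩
      have h7 : ¬ (-x < 0 ∧ -(2 * r) ≤ -x) := fun h => h1 ⟨by linarith [h.1], by linarith [h.2]⟩
      rw [if_neg h6, if_neg h7, if_neg h1, if_neg h4, neg_zero]

theorem nLo_meas (r : ℝ) : Measurable (nLo r) := by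
  have h1 : MeasurableSet {x : ℝ | 0 < x ∧ x ≤ 2 * r} := measurableSet_Ioc
  have h2 : MeasurableSet {x : ℝ | x < 0 ∧ -(2 * r) ≤ x} := by
    have h3 : {x : ℝ | x < 0 ∧ -(2 * r) ≤ x} = Ico (-(2 * r)) 0 := by
      ext x; exact and_comm
    rw [h3]; exact measurableSet_Ico
  have h4 : Measurable (fun x => nL r x) := (nL_cont r).measurable
  have h5 : Measurable (fun x => -nL r (-x)) := ((nL_cont r).comp continuous_neg).neg.measurable
  exact Measurable.ite h1 h4 (Measurable.ite h2 h5 measurable_const)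

theorem nLo_bdd (r : ℝ) : ∃ B, 0 ≤ B ∧ ∀ x, |nLo r x| ≤ B := by
  obtain ⟨B, hB⟩ := (isCompact_Icc (a := (0 : ℝ)) (b := 2 * r)).exists_bound_of_continuousOn
    (nL_cont r).continuousOn
  refine ⟨max B 0, le_max_right _ _, fun x => ?_⟩
  unfold nLo
  split_ifs with h1 h2
  · exact (hB x ⟨h1.1.le, h1.2⟩).trans (le_max_left _ _)
  · rw [abs_neg]
    exact (hB (-x) ⟨by linarith [h2.1], by linarith [h2.2]⟩).trans (le_max_left _ _)
  · rw [abs_zero]
    exact le_max_right _ _

theorem nLo_contAt {r x : ℝ} (hr : 0 < r) (h0 : x ≠ 0) (h1 : x ≠ 2 * r) (h2 : x ≠ -(2 * r)) :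
    ContinuousAt (nLo r) x := by
  rcases lt_or_gt_of_ne h0 with hx | hx
  · rcases lt_or_gt_of_ne h2 with hy | hy
    · have h3 : Iio (-(2 * r)) ∈ nhds x := Iio_mem_nhds hy
      refine (continuousAt_const (y := (0 : ℝ))).congr ?_
      filter_upwards [h3] with y hy'
      have hy'' : y < -(2 * r) := hy'
      unfold nLo
      rw [if_neg (fun h => by linarith [h.1]), if_neg (fun h => by linarith [h.2])]
    · have h3 : Ioo (-(2 * r)) 0 ∈ nhds x := Ioo_mem_nhds hy hx
      refine (((nL_cont r).comp continuous_neg).neg.continuousAt (x := x)).congr ?_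
      filter_upwards [h3] with y hy'
      have h4 : -(2 * r) < y := hy'.1
      have h5 : y < 0 := hy'.2
      unfold nLo
      rw [if_neg (fun h => by linarith [h.1]), if_pos ⟨h5, h4.le⟩]
      rfl
  · rcases lt_or_gt_of_ne h1 with hy | hy
    · have h3 : Ioo 0 (2 * r) ∈ nhds x := Ioo_mem_nhds hx hy
      refine ((nL_cont r).continuousAt (x := x)).congr ?_
      filter_upwards [h3] with y hy'
      have h4 : 0 < y := hy'.1
      have h5 : y < 2 * r := hy'.2
      unfold nLo
      rw [if_pos ⟨h4, h5.le⟩]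
    · have h3 : Ioi (2 * r) ∈ nhds x := Ioi_mem_nhds hy
      refine (continuousAt_const (y := (0 : ℝ))).congr ?_
      filter_upwards [h3] with y hy'
      have hy'' : 2 * r < y := hy'
      unfold nLo
      rw [if_neg (fun h => by linarith [h.2]), if_neg (fun h => by linarith [h.1])]

theorem W_le_one (x : ℝ) : |W x| ≤ 1 := by
  unfold W
  rw [abs_of_pos (Real.exp_pos _), Real.exp_le_one_iff]
  nlinarith [sq_nonneg x]

theorem W_meas : Measurable W := by
  unfold W
  fun_prop

theorem t_n3reg : Pool.Agent.H770.GS.S_n3reg := by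
  intro r c hr hc
  obtain ⟨B, hB0, hB⟩ := nLo_bdd r
  have hb : ∀ v w, ‖W w * nLo r (v + c * w)‖ ≤ B := by
    intro v w
    rw [Real.norm_eq_abs, abs_mul]
    calc |W w| * |nLo r (v + c * w)| ≤ 1 * B :=
          mul_le_mul (W_le_one w) (hB _) (abs_nonneg _) zero_le_one
      _ = B := one_mul B
  refine ⟨?_, ?_, ?_⟩
  · rw [continuous_iff_continuousAt]
    intro v₀
    unfold n3
    refine intervalIntegral.continuousAt_of_dominated_interval (bound := fun _ => B) ?_ ?_ ?_ ?_
    · refine Filter.Eventually.of_forall fun v => ?_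
      have h1 : Measurable (fun w => nLo r (v + c * w)) :=
        (nLo_meas r).comp (by fun_prop : Measurable (fun w : ℝ => v + c * w))
      exact (W_meas.mul h1).aestronglyMeasurable
    · exact Filter.Eventually.of_forall fun v => Filter.Eventually.of_forall fun w _ => hb v w
    · exact intervalIntegrable_const
    · have hcnt : ({(0 - v₀) / c, (2 * r - v₀) / c, (-(2 * r) - v₀) / c} : Set ℝ).Countable :=
        Set.Finite.countable (by simp)
      filter_upwards [hcnt.ae_notMem volume] with w hw _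
      simp only [mem_insert_iff, mem_singleton_iff, not_or] at hw
      obtain ⟨h0, h1, h2⟩ := hw
      have hne : ∀ a, w ≠ (a - v₀) / c → v₀ + c * w ≠ a := by
        intro a ha h
        apply ha
        rw [eq_div_iff hc.ne', ← h]
        ring
      have h3 : ContinuousAt (nLo r) (v₀ + c * w) :=
        nLo_contAt hr (hne 0 h0) (hne _ h1) (hne _ h2)
      have h4 : ContinuousAt (fun v => nLo r (v + c * w)) v₀ := by
        have h5 : ContinuousAt (fun v : ℝ => v + c * w) v₀ := by fun_prop
        exact ContinuousAt.comp (f := fun v : ℝ => v + c * w) (g := nLo r) h3 h5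
      exact continuousAt_const.mul h4
  · intro x
    unfold n3
    have h1 := intervalIntegral.integral_comp_neg (a := -r) (b := r)
      (fun w => W w * nLo r (-x + c * w))
    rw [neg_neg] at h1
    rw [← h1, ← intervalIntegral.integral_neg]
    refine intervalIntegral.integral_congr fun w _ => ?_
    have h2 : W (-w) = W w := by
      unfold W
      rw [neg_sq]
    have h3 : -x + c * -w = -(x + c * w) := by ring
    change W (-w) * nLo r (-x + c * -w) = -(W w * nLo r (x + c * w))
    rw [h2, h3, nLo_odd, mul_neg]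
  · refine ⟨B * |r - -r|, fun x => ?_⟩
    exact intervalIntegral.norm_integral_le_of_norm_le_const fun w _ => hb x w

end Pool.Agent.H154.TA
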