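import Pool.Agent.H979.GW.StmB

set_option autoImplicit false
set_option linter.unusedSectionVars false
set_option linter.unusedVariables false
set_option linter.deprecated false

open MeasureTheory ProbabilityTheory Filter Topology Set
open scoped ENNReal NNReal

/-!
# HEI: maximum of the height of the walk
-/

namespace Pool.Agent.H154

open Pool.Agent.H979.GW
open Pool.Agent.H979.QIP (P K V bm S A Dep lenglart P_zero)

namespace GWHEI

theorem tru_zero (x : ℝ) : tru 0 x = 0 := by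
  unfold tru
  rcases le_total x 0 with h | h
  · rw [min_eq_right h]; simp [h]
  · rw [min_eq_left h]; simp

section

variable {Λ : Type} [DecidableEq Λ]

theorem VR_nonneg {ρ : ℝ} (hρ : 0 < ρ) (ch : List Λ → Finset Λ) (W : List Λ → ℝ) (v : List Λ) :
    0 ≤ VR ρ ch W 0 v := by
  cases v with
  | nil => unfold VR; positivity
  | cons a v => unfold VR; positivity

theorem pi_VR {ρ : ℝ} (hρ : 0 < ρ) (ch : List Λ → Finset Λ) (W : List Λ → ℝ)
    (h0 : (ch []).card ≠ 0) (v : List Λ) :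
    (ρ + (ch v).card) * VR ρ ch W 0 v ≤ (ρ + 1) * (∑ c ∈ ch v, W (c :: v) ^ 2 + ρ * W v ^ 2) := by
  cases v with
  | nil =>
    unfold VR
    simp only [tru_zero, sub_zero]
    have h1 : (1 : ℝ) ≤ (ch []).card := by exact_mod_cast Nat.one_le_iff_ne_zero.2 h0
    have h2 : (0 : ℝ) < (ch []).card := by linarith
    have hs : 0 ≤ ∑ c ∈ ch [], W [c] ^ 2 := Finset.sum_nonneg fun _ _ => sq_nonneg _
    have h3 : (ρ + (ch []).card) * ((∑ c ∈ ch [], W [c] ^ 2) / (ch []).card) =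
        ((ρ + (ch []).card) / (ch []).card) * ∑ c ∈ ch [], W [c] ^ 2 := by ring
    rw [h3]
    have h4 : (ρ + (ch []).card) / (ch []).card ≤ ρ + 1 := by
      rw [div_le_iff₀ h2]
      nlinarith
    have h5 : 0 ≤ ρ * W [] ^ 2 := by positivity
    calc _ ≤ (ρ + 1) * ∑ c ∈ ch [], W [c] ^ 2 := mul_le_mul_of_nonneg_right h4 hs
      _ ≤ _ := mul_le_mul_of_nonneg_left (by linarith) (by linarith)
  | cons a v =>
    unfold VR
    simp only [tru_zero, sub_zero]
    have h2 : (0 : ℝ) < ρ + (ch (a :: v)).card := by positivity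
    rw [mul_div_cancel₀ _ h2.ne']
    have hs : 0 ≤ ∑ c ∈ ch (a :: v), W (c :: a :: v) ^ 2 + ρ * W (a :: v) ^ 2 := by positivity
    nlinarith

theorem sum_VR {ρ : ℝ} (hρ : 0 < ρ) (ch : List Λ → Finset Λ) (W : List Λ → ℝ)
    (h0 : (ch []).card ≠ 0) {K0 : ℝ} (hK : ∀ k, ∑ v ∈ Lev ch k, (ρ⁻¹) ^ k * W v ^ 2 ≤ K0) (k : ℕ) :
    ∑ v ∈ Lev ch k, (ρ⁻¹) ^ k * (ρ + (ch v).card) * VR ρ ch W 0 v ≤ (ρ + 1) * (2 * ρ * K0) := by
  have h1 : ∑ v ∈ Lev ch k, (ρ⁻¹) ^ k * (ρ + (ch v).card) * VR ρ ch W 0 v ≤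
      ∑ v ∈ Lev ch k, (ρ⁻¹) ^ k * ((ρ + 1) * (∑ c ∈ ch v, W (c :: v) ^ 2 + ρ * W v ^ 2)) := by
    refine Finset.sum_le_sum fun v _ => ?_
    rw [mul_assoc]
    exact mul_le_mul_of_nonneg_left (pi_VR hρ ch W h0 v) (by positivity)
  refine h1.trans ?_
  have h2 : ∑ v ∈ Lev ch k, (ρ⁻¹) ^ k * ((ρ + 1) * (∑ c ∈ ch v, W (c :: v) ^ 2 + ρ * W v ^ 2)) =
      (ρ + 1) * (ρ * ∑ v ∈ Lev ch (k + 1), (ρ⁻¹) ^ (k + 1) * W v ^ 2 +
        ρ * ∑ v ∈ Lev ch k, (ρ⁻¹) ^ k * W v ^ 2) := by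
    rw [sum_Lev_succ, Finset.mul_sum, Finset.mul_sum, ← Finset.sum_add_distrib, Finset.mul_sum]
    refine Finset.sum_congr rfl fun v _ => ?_
    rw [Finset.mul_sum]
    have h3 : ∑ c ∈ ch v, ρ * (ρ⁻¹ ^ (k + 1) * W (c :: v) ^ 2) =
        ρ⁻¹ ^ k * ∑ c ∈ ch v, W (c :: v) ^ 2 := by
      rw [Finset.mul_sum]
      refine Finset.sum_congr rfl fun c _ => ?_
      rw [pow_succ]
      field_simp
    rw [h3]
    ring
  rw [h2]
  refine mul_le_mul_of_nonneg_left ?_ (by linarith)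
  have := hK k
  have := hK (k + 1)
  nlinarith

theorem root_ne {ρ : ℝ} (hρ : 0 < ρ) {ch : List Λ → Finset Λ} {W : List Λ → ℝ}
    (hrec : ∀ v, InT ch v → ρ * W v = ∑ c ∈ ch v, W (c :: v)) (hW : 0 < W []) :
    (ch []).card ≠ 0 := by
  intro h
  have h1 := hrec [] trivial
  rw [Finset.card_eq_zero.1 h, Finset.sum_empty] at h1
  have : 0 < ρ * W [] := mul_pos hρ hW
  linarith

/-- first passage -/
theorem first_pass (l : ℕ → ℕ) (h0 : l 0 = 0) (hs : ∀ s, l (s + 1) ≤ l s + 1) {H n s : ℕ}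
    (hH : 0 < H) (hsn : s ≤ n) (h : H ≤ l s) :
    ∃ t ≤ n, l t = H ∧ ∀ j < t, l j < H := by
  classical
  have hex : ∃ t, H ≤ l t := ⟨s, h⟩
  refine ⟨Nat.find hex, (Nat.find_min' hex h).trans hsn, ?_, fun j hj => ?_⟩
  · have h1 := Nat.find_spec hex
    rcases Nat.eq_zero_or_pos (Nat.find hex) with h2 | h2
    · rw [h2, h0] at h1; omega
    · obtain ⟨m, hm⟩ := Nat.exists_eq_succ_of_ne_zero h2.ne'
      have h3 : ¬ H ≤ l m := Nat.find_min hex (by omega)
      rw [hm] at h1 ⊢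
      have := hs m
      simp only [Nat.succ_eq_add_one] at h1 ⊢
      omega
  · exact not_le.1 (Nat.find_min hex hj)

/-- the increments up to the generation `H` -/
noncomputable def xH (ch : List Λ → Finset Λ) (W : List Λ → ℝ) (H : ℕ) (x y : List Λ × Bool) : ℝ :=
  if x.1.length < H then xi ch W x y else 0

theorem S_tele (ch : List Λ → Finset Λ) (W : List Λ → ℝ) (H : ℕ) (w : ℕ → List Λ × Bool) (t : ℕ)
    (hin : ∀ j < t, InT ch (w j).1) (hl : ∀ j < t, (w j).1.length < H) :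
    S (xH ch W H) t w = Sg W (w t) - Sg W (w 0) := by
  unfold S
  rw [← Finset.sum_range_sub (fun j => Sg W (w j)) t]
  refine Finset.sum_congr rfl fun j hj => ?_
  have hj := Finset.mem_range.1 hj
  unfold xH xi
  rw [if_pos (hl j hj), if_pos (hin j hj)]

theorem abs_Sg (W : List Λ → ℝ) (x : List Λ × Bool) : |Sg W x| = |Sf W x.1| := by
  unfold Sg
  split_ifs
  · rfl
  · exact abs_neg _

/-- the truncated second moment -/
noncomputable def fH (ρ : ℝ) (ch : List Λ → Finset Λ) (W : List Λ → ℝ) (H : ℕ) (v : List Λ) : ℝ :=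
  if v.length < H then VR ρ ch W 0 v else 0

theorem fH_nonneg {ρ : ℝ} (hρ : 0 < ρ) (ch : List Λ → Finset Λ) (W : List Λ → ℝ) (H : ℕ)
    (v : List Λ) : 0 ≤ fH ρ ch W H v := by
  unfold fH
  split_ifs
  · exact VR_nonneg hρ ch W v
  · exact le_rfl

theorem sum_fH {ρ : ℝ} (hρ : 0 < ρ) (ch : List Λ → Finset Λ) (W : List Λ → ℝ)
    (h0 : (ch []).card ≠ 0) {K0 : ℝ} (hK : ∀ k, ∑ v ∈ Lev ch k, (ρ⁻¹) ^ k * W v ^ 2 ≤ K0)
    (hK0 : 0 ≤ K0) (n H : ℕ) :
    ∑ k ∈ Finset.range n, ∑ v ∈ Lev ch k, (ρ⁻¹) ^ k * (ρ + (ch v).card) * fH ρ ch W H v ≤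
      H * ((ρ + 1) * (2 * ρ * K0)) := by
  have hKK : 0 ≤ (ρ + 1) * (2 * ρ * K0) := by positivity
  have h1 : ∀ k, ∑ v ∈ Lev ch k, (ρ⁻¹) ^ k * (ρ + (ch v).card) * fH ρ ch W H v ≤
      if k < H then (ρ + 1) * (2 * ρ * K0) else 0 := by
    intro k
    split_ifs with hk
    · refine le_trans (le_of_eq ?_) (sum_VR hρ ch W h0 hK k)
      refine Finset.sum_congr rfl fun v hv => ?_
      have : v.length < H := by rw [(mem_Lev.1 hv).1]; exact hk
      unfold fH
      rw [if_pos this]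
    · refine le_of_eq (Finset.sum_eq_zero fun v hv => ?_)
      have : ¬ v.length < H := by rw [(mem_Lev.1 hv).1]; exact hk
      unfold fH
      rw [if_neg this, mul_zero]
  refine (Finset.sum_le_sum fun k _ => h1 k).trans ?_
  rw [← Finset.sum_filter, Finset.sum_const, nsmul_eq_mul]
  refine mul_le_mul_of_nonneg_right ?_ hKK
  have h2 : ((Finset.range n).filter (fun k => k < H)).card ≤ H := by
    refine (Finset.card_le_card ?_).trans (le_of_eq (Finset.card_range H))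
    intro k hk
    simp only [Finset.mem_filter, Finset.mem_range] at hk ⊢
    exact hk.2
  exact_mod_cast h2

variable [Countable Λ]

theorem V_xH (hs : S_SGN) {ρ : ℝ} [Fact (1 < ρ)] {ch : List Λ → Finset Λ} {W : List Λ → ℝ}
    (h1 : ∀ v, InT ch v → 0 ≤ W v)
    (h2 : ∀ v, InT ch v → ρ * W v = ∑ c ∈ ch v, W (c :: v)) (h3 : 0 < W []) (H : ℕ)
    (x : List Λ × Bool) :
    V (sgc ρ ch) (xH ch W H) x ≤ ENNReal.ofReal (fH ρ ch W H x.1) := by
  obtain ⟨v, s⟩ := x
  by_cases hv : v.length < H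
  · by_cases hi : InT ch v
    · have e := (hs Λ ρ ch W h1 h2 h3).2.2.2 v s hi
      unfold fH
      simp only
      rw [if_pos hv, ← e]
      refine le_of_eq ?_
      unfold V
      refine lintegral_congr fun y => ?_
      unfold xH
      rw [if_pos (show ((v, s) : List Λ × Bool).1.length < H from hv)]
    · refine le_trans (le_of_eq ?_) zero_le
      unfold V
      have : ∀ y, ENNReal.ofReal (xH ch W H (v, s) y ^ 2) = 0 := by
        intro y
        unfold xH xi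
        rw [if_neg (show ¬ InT ch ((v, s) : List Λ × Bool).1 from hi)]
        simp
      simp_rw [this]
      simp
  · refine le_trans (le_of_eq ?_) zero_le
    unfold V
    have : ∀ y, ENNReal.ofReal (xH ch W H (v, s) y ^ 2) = 0 := by
      intro y
      unfold xH
      rw [if_neg (show ¬ ((v, s) : List Λ × Bool).1.length < H from hv)]
      simp
    simp_rw [this]
    simp

theorem bm_xH (hs : S_SGN) {ρ : ℝ} [Fact (1 < ρ)] {ch : List Λ → Finset Λ} {W : List Λ → ℝ}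
    (h1 : ∀ v, InT ch v → 0 ≤ W v)
    (h2 : ∀ v, InT ch v → ρ * W v = ∑ c ∈ ch v, W (c :: v)) (h3 : 0 < W []) (H : ℕ)
    (x : List Λ × Bool) :
    bm (sgc ρ ch) (xH ch W H) x = 0 := by
  by_cases hv : x.1.length < H
  · have e := (hs Λ ρ ch W h1 h2 h3).2.1 x
    rw [← e]
    unfold bm
    refine integral_congr_ae (Eventually.of_forall fun y => ?_)
    unfold xH
    rw [if_pos hv]
  · unfold bm
    have : ∀ y, xH ch W H x y = 0 := by
      intro y
      unfold xH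
      rw [if_neg hv]
    simp_rw [this]
    simp

/-- the mean of the bracket -/
theorem mean_A (hs : S_SGN) (hl : S_LUMP) {ρ : ℝ} [hf : Fact (1 < ρ)] {ch : List Λ → Finset Λ}
    {W : List Λ → ℝ} (h1 : ∀ v, InT ch v → 0 ≤ W v)
    (h2 : ∀ v, InT ch v → ρ * W v = ∑ c ∈ ch v, W (c :: v)) (h3 : 0 < W []) (H n : ℕ) :
    ∫⁻ w, A (V (sgc ρ ch) (xH ch W H)) n w ∂(P (sgc ρ ch) ([], true)) ≤
      ENNReal.ofReal (∑ t ∈ Finset.range n, (Pop ρ ch)^[t] (fH ρ ch W H) []) := by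
  have hρ : 0 < ρ := zero_lt_one.trans hf.out
  have h0 : (ch []).card ≠ 0 := root_ne hρ h2 h3
  have hm : Measurable (fun (w : ℕ → List Λ × Bool) (k : ℕ) => (w k).1) :=
    measurable_pi_lambda _ fun k => measurable_fst.comp (measurable_pi_apply k)
  calc ∫⁻ w, A (V (sgc ρ ch) (xH ch W H)) n w ∂(P (sgc ρ ch) ([], true))
      ≤ ∫⁻ w, ∑ t ∈ Finset.range n, ENNReal.ofReal (fH ρ ch W H (w t).1)
          ∂(P (sgc ρ ch) ([], true)) := by
        refine lintegral_mono fun w => ?_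
        unfold A
        exact Finset.sum_le_sum fun j _ => V_xH hs h1 h2 h3 H (w j)
    _ = ∑ t ∈ Finset.range n, ∫⁻ w, ENNReal.ofReal (fH ρ ch W H (w t).1)
          ∂(P (sgc ρ ch) ([], true)) := by
        refine lintegral_finsetSum _ fun t _ => ?_
        exact (measurable_of_countable (fun x : List Λ × Bool =>
          ENNReal.ofReal (fH ρ ch W H x.1))).comp (measurable_pi_apply t)
    _ = ∑ t ∈ Finset.range n, ENNReal.ofReal ((Pop ρ ch)^[t] (fH ρ ch W H) []) := by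
        refine Finset.sum_congr rfl fun t _ => ?_
        rw [← coord h0 (fH_nonneg hρ ch W H) t [], ← hl Λ ρ ch [] true, lintegral_map ?_ hm]
        exact (measurable_of_countable (fun x : List Λ =>
          ENNReal.ofReal (fH ρ ch W H x))).comp (measurable_pi_apply t)
    _ = _ := by
        rw [ENNReal.ofReal_sum_of_nonneg]
        exact fun t _ => Pop_iter_nonneg hρ ch (fH_nonneg hρ ch W H) t []

theorem dep_E (n : ℕ) (c : ℝ) :
    Dep n (fun w : ℕ → List Λ => w ∈ {w : ℕ → List Λ | ∃ s ≤ n, c < ((w s).length : ℝ)}) := by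
  intro w w' hw
  simp only [mem_setOf_eq, eq_iff_iff]
  constructor
  · rintro ⟨s, hs, h⟩
    exact ⟨s, hs, by rwa [← hw s hs]⟩
  · rintro ⟨s, hs, h⟩
    exact ⟨s, hs, by rwa [hw s hs]⟩

theorem dep_L (n : ℕ) (c : ℝ) (p : List Λ → Prop) :
    Dep n (fun w : ℕ → List Λ =>
      w ∈ {w : ℕ → List Λ | ∃ s ≤ n, ((w s).length : ℝ) ≤ c ∧ p (w s)}) := by
  intro w w' hw
  simp only [mem_setOf_eq, eq_iff_iff]
  constructor
  · rintro ⟨s, hs, h⟩
    exact ⟨s, hs, by rwa [← hw s hs]⟩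
  · rintro ⟨s, hs, h⟩
    exact ⟨s, hs, by rwa [hw s hs]⟩

/-- a vertex which is not bad is high -/
theorem high {ρ : ℝ} (hρ : 1 < ρ) {ch : List Λ → Finset Λ} {W : List Λ → ℝ} {η x : ℝ}
    (hη : 0 < η) (h1 : ∀ v, InT ch v → 0 ≤ W v) {v : List Λ} (hv : InT ch v)
    (hx : x ≤ (v.length : ℝ)) (hb : ¬ Bad ρ W η ((ρ - 1) * η / 2) x v)
    (hbig : ρ * W [] / (ρ - 1) ≤ η * v.length / 4) : η * v.length / 4 ≤ Sf W v := by
  unfold Bad at hb
  push Not at hb
  have h := hb v.length le_rfl hx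
  have e : v.drop v.length = [] := List.drop_eq_nil_of_le le_rfl
  have e0 : Sf W ([] : List Λ) = 0 := rfl
  rw [e, e0, sub_zero] at h
  have hW := h1 v hv
  have hr : 0 < ρ - 1 := by linarith
  have h4 : ρ * W [] ≤ (ρ - 1) * (η * v.length / 4) := by
    rw [div_le_iff₀ hr] at hbig
    linarith
  have h5 : 0 ≤ ρ * W v := mul_nonneg (by linarith) hW
  have h6 : (ρ - 1) * (η * v.length / 4) ≤ (ρ - 1) * Sf W v := by nlinarith
  exact le_of_mul_le_mul_left h6 hr

end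

end GWHEI

open GWHEI in
/-- **HEI** -/
theorem gw_hei (ho : S_OCC) (hl : S_LOV) (hlu : S_LUMP) (hs : S_SGN) (hi : S_INT) : S_HEI := by
  intro Λ _ _ ρ hfact ch W cL σ2 η h η' hη'
  have hρ : 1 < ρ := h.rho
  have hρ0 : 0 < ρ := zero_lt_one.trans hρ
  have hr1 : 0 < ρ - 1 := by linarith
  have hη := h.eta
  have h0 : (ch []).card ≠ 0 := root_ne hρ0 h.W_rec h.W_root
  obtain ⟨C, hC0, hC⟩ := ho Λ ρ ch W cL σ2 η h
  obtain ⟨K0, hK0⟩ := h.sq
  have hK0' : 0 ≤ K0 := by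
    refine le_trans ?_ (hK0 0)
    exact Finset.sum_nonneg fun v _ => by positivity
  set KK : ℝ := (ρ + 1) * (2 * ρ * K0) with hKK
  have hKK0 : 0 ≤ KK := by positivity
  set ε : ℝ := (ρ - 1) * η / 2 with hε
  have hε0 : 0 < ε := by positivity
  -- the constant
  obtain ⟨B, hB1, hB2, hB3⟩ : ∃ B : ℝ, 1 ≤ B ∧ ε ≤ B ^ 2 ∧
      (16 / η ^ 2 + 2 * C * KK) / B ≤ η' / 2 := by
    set D := 16 / η ^ 2 + 2 * C * KK with hD
    have hD0 : 0 ≤ D := by positivity
    refine ⟨1 + ε + 2 * D / η', ?_, ?_, ?_⟩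
    · have : 0 ≤ 2 * D / η' := by positivity
      linarith
    · have : 0 ≤ 2 * D / η' := by positivity
      nlinarith
    · have h2 : 0 ≤ 2 * D / η' := by positivity
      rw [div_le_iff₀ (by linarith)]
      have h3 : η' / 2 * (2 * D / η') = D := by field_simp
      nlinarith
  have hB0 : 0 < B := by linarith
  set AA : ℝ := B ^ 2 with hAA
  have hA0 : 0 < AA := by positivity
  have hA1 : 1 ≤ AA := by nlinarith
  refine ⟨AA, hA0, ?_⟩
  have hLOV := hl Λ ρ ch W cL σ2 η h (2 * AA) ε (by positivity) hε0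
  have hev1 : ∀ᶠ n : ℕ in atTop, P (stp ρ ch) [] {w | ∃ s ≤ n, ((w s).length : ℝ) ≤ 2 * AA * √n ∧
      Bad ρ W η ε (ε * √n) (w s)} ≤ ENNReal.ofReal (η' / 2) :=
    (hLOV.eventually_lt_const (ENNReal.ofReal_pos.2 (by positivity))).mono fun n hn => hn.le
  have hsq : Tendsto (fun n : ℕ => √(n : ℝ)) atTop atTop :=
    Real.tendsto_sqrt_atTop.comp tendsto_natCast_atTop_atTop
  have hev2 : ∀ᶠ n : ℕ in atTop, 4 * (ρ * W [] / (ρ - 1)) / (η * AA) ≤ √(n : ℝ) :=
    hsq.eventually_ge_atTop _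
  filter_upwards [hev1, hev2, eventually_ge_atTop 1] with n hn1 hn2 hn3
  have hn0 : (1 : ℝ) ≤ n := by exact_mod_cast hn3
  have hsn : 1 ≤ √(n : ℝ) := Real.one_le_sqrt.2 hn0
  have hsn2 : √(n : ℝ) * √(n : ℝ) = n := Real.mul_self_sqrt (by linarith)
  set H : ℕ := ⌊AA * √(n : ℝ)⌋₊ + 1 with hH
  have hH1 : AA * √(n : ℝ) < H := by
    rw [hH]; push_cast; exact Nat.lt_floor_add_one _
  have hH2 : (H : ℝ) ≤ 2 * AA * √(n : ℝ) := by
    rw [hH]; push_cast
    have := Nat.floor_le (show 0 ≤ AA * √(n : ℝ) by positivity)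
    nlinarith
  have hm : Measurable (fun (w : ℕ → List Λ × Bool) (k : ℕ) => (w k).1) :=
    measurable_pi_lambda _ fun k => measurable_fst.comp (measurable_pi_apply k)
  set En : Set (ℕ → List Λ) := {w | ∃ s ≤ n, AA * √(n : ℝ) < ((w s).length : ℝ)} with hEn
  set Ln : Set (ℕ → List Λ) := {w | ∃ s ≤ n, ((w s).length : ℝ) ≤ 2 * AA * √(n : ℝ) ∧
      Bad ρ W η ε (ε * √(n : ℝ)) (w s)} with hLn
  have hEm : MeasurableSet En := (dep_E n (AA * √(n : ℝ))).measurableSet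
  have hLm : MeasurableSet Ln :=
    (dep_L n (2 * AA * √(n : ℝ)) (Bad ρ W η ε (ε * √(n : ℝ)))).measurableSet
  have hlump := hlu Λ ρ ch [] true
  rw [← hlump, Measure.map_apply hm hLm] at hn1
  rw [← hlump, Measure.map_apply hm hEm]
  set ν := P (sgc ρ ch) (([] : List Λ), true) with hν
  -- a.e. properties
  have hae : ∀ᵐ w ∂ν, (w 0).1 = [] ∧ ∀ s, InT ch (w s).1 ∧
      ((∃ b, b ∈ ch (w s).1 ∧ (w (s + 1)).1 = b :: (w s).1) ∨
        (∃ b, (w s).1 = b :: (w (s + 1)).1)) := by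
    have h1 := hi Λ ρ ch h0
    rw [← hlump] at h1
    exact ae_of_ae_map hm.aemeasurable h1
  set r : ℝ := η * (AA * √(n : ℝ)) / 4 with hr
  have hr0 : 0 < r := by positivity
  set ξ := xH ch W H with hξ
  have hV : ∀ x, V (sgc ρ ch) ξ x ≠ ∞ := fun x =>
    ((V_xH hs h.W_nonneg h.W_rec h.W_root H x).trans_lt ENNReal.ofReal_lt_top).ne
  have hbm : ∀ x, bm (sgc ρ ch) ξ x = 0 := fun x => bm_xH hs h.W_nonneg h.W_rec h.W_root H x
  have hlen := lenglart (sgc ρ ch) hV hbm hr0 n (([] : List Λ), true) 0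
    (ENNReal.ofReal (B ^ 3 * n))
  have hincl : ν ((fun (w : ℕ → List Λ × Bool) (k : ℕ) => (w k).1) ⁻¹' En) ≤
      ν (((fun (w : ℕ → List Λ × Bool) (k : ℕ) => (w k).1) ⁻¹' Ln) ∪
        {w | ∃ k ≤ n, r < |0 + S ξ k w|}) := by
    refine measure_mono_ae ?_
    filter_upwards [hae] with w hw
    rintro ⟨s, hsn', hsl⟩
    obtain ⟨hw0, hws⟩ := hw
    have hHs : H ≤ (w s).1.length := by
      rw [hH]
      have hsl' : AA * √(n : ℝ) < ((w s).1.length : ℝ) := hsl
      have := (Nat.floor_lt (show 0 ≤ AA * √(n : ℝ) by positivity)).2 hsl'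
      omega
    obtain ⟨t, ht, htH, htj⟩ := first_pass (fun k => (w k).1.length) (by rw [hw0]; rfl)
      (fun k => by
        rcases (hws k).2 with ⟨b, -, hb⟩ | ⟨b, hb⟩
        · rw [hb]; simp
        · rw [hb]; simp; omega) (H := H) (by omega) hsn' hHs
    have htH' : ((w t).1.length : ℝ) = H := by exact_mod_cast htH
    by_cases hbad : Bad ρ W η ε (ε * √(n : ℝ)) (w t).1
    · left
      exact ⟨t, ht, by rw [htH']; exact hH2, hbad⟩
    · right
      refine ⟨t, ht, ?_⟩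
      rw [zero_add, hξ, S_tele ch W H w t (fun j _ => (hws j).1) htj]
      have e0 : Sg W (w 0) = 0 := by
        have : |Sg W (w 0)| = 0 := by
          rw [abs_Sg, hw0]; simp [Sf]
        exact abs_eq_zero.1 this
      rw [e0, sub_zero, abs_Sg]
      have hx : ε * √(n : ℝ) ≤ ((w t).1.length : ℝ) := by
        rw [htH']
        nlinarith
      have hbig : ρ * W [] / (ρ - 1) ≤ η * ((w t).1.length : ℝ) / 4 := by
        rw [htH']
        rw [div_le_iff₀ (by positivity)] at hn2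
        nlinarith
      have h5 := high hρ hη h.W_nonneg (hws t).1 hx hbad hbig
      rw [htH'] at h5
      refine lt_of_lt_of_le ?_ (h5.trans (le_abs_self _))
      rw [hr]
      have := mul_lt_mul_of_pos_left hH1 hη
      linarith
  have hmark : ν {w | ENNReal.ofReal (B ^ 3 * n) < A (V (sgc ρ ch) ξ) n w} ≤
      ENNReal.ofReal (2 * C * KK / B) := by
    have hAm : Measurable (A (V (sgc ρ ch) ξ) n) :=
      (Pool.Agent.H979.QIP.dep_A _ (le_refl n)).measurable
    have h1 : ν {w | ENNReal.ofReal (B ^ 3 * n) < A (V (sgc ρ ch) ξ) n w} ≤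
        ν {w | ENNReal.ofReal (B ^ 3 * n) ≤ A (V (sgc ρ ch) ξ) n w} :=
      measure_mono fun w (hw : ENNReal.ofReal (B ^ 3 * n) < A (V (sgc ρ ch) ξ) n w) => hw.le
    have h2 := meas_ge_le_lintegral_div (μ := ν) hAm.aemeasurable
      (ε := ENNReal.ofReal (B ^ 3 * n)) (by
        rw [Ne, ENNReal.ofReal_eq_zero, not_le]; positivity) ENNReal.ofReal_ne_top
    refine (h1.trans h2).trans ?_
    have h3 := mean_A hs hlu h.W_nonneg h.W_rec h.W_root H n
    have h4 : ∑ t ∈ Finset.range n, (Pop ρ ch)^[t] (fH ρ ch W H) [] ≤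
        C * √(n : ℝ) * (2 * AA * √(n : ℝ) * KK) := by
      refine ((hC (fH ρ ch W H) (fH_nonneg hρ0 ch W H)).1 n hn3).trans ?_
      refine mul_le_mul_of_nonneg_left ?_ (by positivity)
      refine (sum_fH hρ0 ch W h0 hK0 hK0' n H).trans ?_
      exact mul_le_mul_of_nonneg_right hH2 hKK0
    have h5 : C * √(n : ℝ) * (2 * AA * √(n : ℝ) * KK) = (2 * C * KK / B) * (B ^ 3 * n) := by
      have key : ∀ y : ℝ, C * y * (2 * B ^ 2 * y * KK) = (2 * C * KK / B) * (B ^ 3 * (y * y)) := by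
        intro y
        field_simp
      have h8 := key (√(n : ℝ))
      rw [hsn2] at h8
      exact h8
    rw [h5] at h4
    refine (ENNReal.div_le_div_right (h3.trans (ENNReal.ofReal_le_ofReal h4)) _).trans ?_
    rw [ENNReal.ofReal_mul (by positivity)]
    refine le_of_eq ?_
    rw [mul_div_assoc, ENNReal.div_self, mul_one]
    · rw [Ne, ENNReal.ofReal_eq_zero, not_le]; positivity
    · exact ENNReal.ofReal_ne_top
  have hfirst : (ENNReal.ofReal ((0 : ℝ) ^ 2) + ENNReal.ofReal (B ^ 3 * n)) /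
      ENNReal.ofReal (r ^ 2) = ENNReal.ofReal (16 / η ^ 2 / B) := by
    rw [show ((0 : ℝ) ^ 2) = 0 by norm_num, ENNReal.ofReal_zero, zero_add,
      ← ENNReal.ofReal_div_of_pos (by positivity)]
    congr 1
    rw [hr, hAA]
    have h7 : √(n : ℝ) ≠ 0 := by positivity
    have key : ∀ y : ℝ, y ≠ 0 →
        B ^ 3 * (y * y) / (η * (B ^ 2 * y) / 4) ^ 2 = 16 / η ^ 2 / B := by
      intro y hy
      field_simp
      ring
    have h8 := key _ h7
    rw [hsn2] at h8
    exact h8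
  calc ν ((fun (w : ℕ → List Λ × Bool) (k : ℕ) => (w k).1) ⁻¹' En)
      ≤ ν ((fun (w : ℕ → List Λ × Bool) (k : ℕ) => (w k).1) ⁻¹' Ln) +
        ν {w | ∃ k ≤ n, r < |0 + S ξ k w|} := hincl.trans (measure_union_le _ _)
    _ ≤ ENNReal.ofReal (η' / 2) + (ENNReal.ofReal (16 / η ^ 2 / B) +
        ENNReal.ofReal (2 * C * KK / B)) := by
        refine add_le_add hn1 (hlen.trans ?_)
        rw [hfirst]
        exact add_le_add le_rfl hmark
    _ = ENNReal.ofReal (η' / 2 + (16 / η ^ 2 / B + 2 * C * KK / B)) := by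
        rw [← ENNReal.ofReal_add (by positivity) (by positivity),
          ← ENNReal.ofReal_add (by positivity) (by positivity)]
    _ ≤ ENNReal.ofReal η' := by
        refine ENNReal.ofReal_le_ofReal ?_
        rw [add_div] at hB3
        linarith

end Pool.Agent.H154
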