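import Pool.Agent.H402.HD.Stm

/-!
# H1: the hyperdeterminant vanishes on tensors of small slice rank (helper154, for helper402)
-/

set_option autoImplicit false

open Finset

namespace Pool.Agent.H154.HD_H1

open Pool.Agent.H402.HD

universe u

section

variable {F : Type u} [Field F] {d k r : ℕ}

/-- the point -/
def P (σ : Fin d → Equiv.Perm (Fin k)) (i : Fin k) : Fin (d + 1) → Fin k :=
  Fin.cons i fun α => σ α i

theorem P_zero (σ : Fin d → Equiv.Perm (Fin k)) (i : Fin k) : P σ i 0 = i := rfl

theorem P_succ (σ : Fin d → Equiv.Perm (Fin k)) (i : Fin k) (β : Fin d) :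
    P σ i β.succ = σ β i := rfl

theorem main (hr : r < k) (hd : 1 ≤ d) (h1 : (-1 : F) ^ (d + 1) = 1) (α : Fin r → Fin (d + 1))
    (a g : Fin r → (Fin (d + 1) → Fin k) → F)
    (ha : ∀ t x y, x (α t) = y (α t) → a t x = a t y)
    (hg : ∀ t x y, (∀ β, β ≠ α t → x β = y β) → g t x = g t y) (τ : Fin k → Fin r) :
    ∑ σ : Fin d → Equiv.Perm (Fin k), (∏ α, ((Equiv.Perm.sign (σ α) : ℤ) : F)) *
      ∏ i : Fin k, (a (τ i) (P σ i) * g (τ i) (P σ i)) = 0 := by
  classical
  obtain ⟨i, i', hne, hτ⟩ := Fintype.exists_ne_map_eq_of_card_lt τ (by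
    rw [Fintype.card_fin, Fintype.card_fin]
    exact hr)
  set s : Equiv.Perm (Fin k) := Equiv.swap i i' with hs
  have hss : s * s = 1 := Equiv.swap_mul_self i i'
  have hs1 : s ≠ 1 := by
    intro h
    apply hne
    have := Equiv.swap_eq_one_iff.1 h
    exact this
  have hsign : Equiv.Perm.sign s = -1 := Equiv.Perm.sign_swap hne
  have hτs : ∀ j, τ (s j) = τ j := by
    intro j
    rcases eq_or_ne j i with h | h
    · rw [h, hs, Equiv.swap_apply_left, hτ]
    · rcases eq_or_ne j i' with h' | h'
      · rw [h', hs, Equiv.swap_apply_right, hτ]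
      · rw [hs, Equiv.swap_apply_of_ne_of_ne h h']
  have hcase : ∀ j, s j = j ∨ τ j = τ i := by
    intro j
    rcases eq_or_ne j i with h | h
    · right
      rw [h]
    · rcases eq_or_ne j i' with h' | h'
      · right
        rw [h', hτ]
      · left
        rw [hs, Equiv.swap_apply_of_ne_of_ne h h']
  have hm1 : (-1 : F) ^ d = -1 := by
    have h2 : (-1 : F) ^ d * (-1) = 1 := by rw [← pow_succ, h1]
    have h3 : (-1 : F) ^ d = (-1 : F) ^ d * (-1) * (-1) := by ring
    rw [h3, h2, one_mul]
  rcases Fin.eq_zero_or_eq_succ (α (τ i)) with h0 | ⟨β, hβ⟩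
  · refine Finset.sum_involution (fun σ _ => fun β => σ β * s) ?_ ?_ (fun _ _ => mem_univ _) ?_
    · intro σ _
      have hsg : ∏ β, ((Equiv.Perm.sign (σ β * s) : ℤ) : F) =
          -∏ β, ((Equiv.Perm.sign (σ β) : ℤ) : F) := by
        have e : ∀ β, ((Equiv.Perm.sign (σ β * s) : ℤ) : F) =
            ((Equiv.Perm.sign (σ β) : ℤ) : F) * (-1) := by
          intro β
          rw [Equiv.Perm.sign_mul, hsign]
          push_cast
          ring
        rw [Finset.prod_congr rfl fun β _ => e β, Finset.prod_mul_distrib, Finset.prod_const,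
          Finset.card_univ, Fintype.card_fin, hm1]
        ring
      have hP : ∀ j, s j = j → P (fun β => σ β * s) j = P σ j := by
        intro j hj
        funext γ
        induction γ using Fin.cases with
        | zero => rfl
        | succ γ =>
          rw [P_succ, P_succ, Equiv.Perm.mul_apply, hj]
      have hA : ∀ j, a (τ j) (P (fun β => σ β * s) j) = a (τ j) (P σ j) := by
        intro j
        rcases hcase j with hj | hj
        · rw [hP j hj]
        · apply ha
          rw [hj, h0]
          rfl
      have hG : ∀ j, g (τ j) (P (fun β => σ β * s) j) = g (τ (s j)) (P σ (s j)) := by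
        intro j
        rcases hcase j with hj | hj
        · rw [hP j hj, hj]
        · rw [hτs]
          apply hg
          intro γ hγ
          rw [hj, h0] at hγ
          obtain ⟨γ', rfl⟩ := Fin.exists_succ_eq.2 hγ
          rw [P_succ, P_succ, Equiv.Perm.mul_apply]
      have e2 : ∏ j : Fin k, (a (τ j) (P (fun β => σ β * s) j) * g (τ j) (P (fun β => σ β * s) j)) =
          ∏ j : Fin k, (a (τ j) (P σ j) * g (τ j) (P σ j)) := by
        rw [Finset.prod_mul_distrib, Finset.prod_mul_distrib, Finset.prod_congr rfl fun j _ => hA j,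
          Finset.prod_congr rfl fun j _ => hG j,
          Equiv.prod_comp s fun j => g (τ j) (P σ j)]
      rw [e2, hsg]
      ring
    · intro σ _ _ h
      have h2 := congrFun h ⟨0, hd⟩
      exact hs1 (mul_eq_left.1 h2)
    · intro σ _
      funext β
      show σ β * s * s = σ β
      rw [mul_assoc, hss, mul_one]
  · refine Finset.sum_involution (fun σ _ => Function.update σ β (σ β * s)) ?_ ?_
      (fun _ _ => mem_univ _) ?_
    · intro σ _
      have hsg : ∏ γ, ((Equiv.Perm.sign (Function.update σ β (σ β * s) γ) : ℤ) : F) =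
          -∏ γ, ((Equiv.Perm.sign (σ γ) : ℤ) : F) := by
        rw [← Finset.mul_prod_erase _ _ (Finset.mem_univ β),
          ← Finset.mul_prod_erase (s := Finset.univ) (f := fun γ => ((Equiv.Perm.sign (σ γ) : ℤ) : F))
            (a := β) (Finset.mem_univ β), Function.update_self, Equiv.Perm.sign_mul, hsign]
        have e : ∏ γ ∈ Finset.univ.erase β,
            ((Equiv.Perm.sign (Function.update σ β (σ β * s) γ) : ℤ) : F) =
            ∏ γ ∈ Finset.univ.erase β, ((Equiv.Perm.sign (σ γ) : ℤ) : F) := by
          apply Finset.prod_congr rfl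
          intro γ hγ
          rw [Function.update_of_ne (Finset.ne_of_mem_erase hγ)]
        rw [e]
        push_cast
        ring
      have hPo : ∀ j γ, γ ≠ β.succ → P (Function.update σ β (σ β * s)) j γ = P σ j γ := by
        intro j γ hγ
        induction γ using Fin.cases with
        | zero => rfl
        | succ γ =>
          rw [P_succ, P_succ, Function.update_of_ne]
          rintro rfl
          exact hγ rfl
      have hPs : ∀ j, P (Function.update σ β (σ β * s)) j β.succ = P σ (s j) β.succ := by
        intro j
        rw [P_succ, P_succ, Function.update_self, Equiv.Perm.mul_apply]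
      have hP : ∀ j, s j = j → P (Function.update σ β (σ β * s)) j = P σ j := by
        intro j hj
        funext γ
        rcases eq_or_ne γ β.succ with h | h
        · rw [h, hPs, hj]
        · exact hPo j γ h
      have hA : ∀ j, a (τ j) (P (Function.update σ β (σ β * s)) j) = a (τ (s j)) (P σ (s j)) := by
        intro j
        rcases hcase j with hj | hj
        · rw [hP j hj, hj]
        · rw [hτs]
          apply ha
          rw [hj, hβ]
          exact hPs j
      have hG : ∀ j, g (τ j) (P (Function.update σ β (σ β * s)) j) = g (τ j) (P σ j) := by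
        intro j
        rcases hcase j with hj | hj
        · rw [hP j hj]
        · apply hg
          intro γ hγ
          rw [hj, hβ] at hγ
          exact hPo j γ hγ
      have e2 : ∏ j : Fin k, (a (τ j) (P (Function.update σ β (σ β * s)) j) *
          g (τ j) (P (Function.update σ β (σ β * s)) j)) =
          ∏ j : Fin k, (a (τ j) (P σ j) * g (τ j) (P σ j)) := by
        rw [Finset.prod_mul_distrib, Finset.prod_mul_distrib, Finset.prod_congr rfl fun j _ => hA j,
          Finset.prod_congr rfl fun j _ => hG j,
          Equiv.prod_comp s fun j => a (τ j) (P σ j)]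
      rw [e2, hsg]
      ring
    · intro σ _ _ h
      have h2 := congrFun h β
      rw [Function.update_self] at h2
      exact hs1 (mul_eq_left.1 h2)
    · intro σ _
      show Function.update (Function.update σ β (σ β * s)) β
        (Function.update σ β (σ β * s) β * s) = σ
      rw [Function.update_self, Function.update_idem, mul_assoc, hss, mul_one,
        Function.update_eq_self]

end

theorem holds : S_h1.{u} := by
  intro F _ d k M hd h1 hM
  obtain ⟨r, hr, α, a, g, ha, hg, hT⟩ := hM
  have e : hdet M = ∑ σ : Fin d → Equiv.Perm (Fin k), ∑ τ : Fin k → Fin r,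
      (∏ α, ((Equiv.Perm.sign (σ α) : ℤ) : F)) *
        ∏ i : Fin k, (a (τ i) (P σ i) * g (τ i) (P σ i)) := by
    unfold hdet
    apply Finset.sum_congr rfl
    intro σ _
    rw [← Finset.mul_sum]
    have e2 : ∏ i : Fin k, M (Fin.cons i fun α => σ α i) =
        ∏ i : Fin k, ∑ t : Fin r, a t (P σ i) * g t (P σ i) := by
      apply Finset.prod_congr rfl
      intro i _
      exact hT _
    rw [e2, Finset.prod_univ_sum, Fintype.piFinset_univ]
  rw [e, Finset.sum_comm]
  apply Finset.sum_eq_zero
  intro τ _
  exact main hr hd h1 α a g ha hg τ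

end Pool.Agent.H154.HD_H1
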