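import Pool.Agent.H465.OC.StmB

/-!
# Project OC of helper465, task B8: the primes 2 and 3 (helper154)
-/

set_option autoImplicit false

namespace Pool.Agent.H154.OCOrd23

open Polynomial Pool.Agent.Q279.SC Pool.Agent.H465.OC

theorem q4_dvd (p : ℕ) [Fact p.Prime] (hp : p = 2 ∨ p = 3) :
    (p : LaurentSeries ℤ_[p]) ∣ ls (q4 ℤ_[p]) - 1 := by
  have h1 : ls (q4 ℤ_[p]) - 1 = 240 * ls (PowerSeries.map (Int.castRingHom ℤ_[p]) zA) := by
    unfold ls q4 z4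
    rw [map_add, map_mul, map_one, map_add, map_mul, map_one, map_ofNat, map_ofNat]
    ring
  rw [h1]
  refine Dvd.dvd.mul_right ?_ _
  rcases hp with rfl | rfl
  · exact ⟨120, by norm_num⟩
  · exact ⟨80, by norm_num⟩

theorem key {B : Type} [CommRing B] (P E D Di a : B) (n : ℕ) (hE : P ∣ E - 1) (hD : D * Di = 1)
    (h : P ∣ a * D ^ n - 1) : P ∣ a - (E ^ 3 * Di) ^ n := by
  have h1 : P ∣ Di - E ^ 3 * Di := by
    have h2 : P ∣ E ^ 3 - 1 ^ 3 := hE.trans (sub_dvd_pow_sub_pow E 1 3)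
    have h3 : Di - E ^ 3 * Di = -((E ^ 3 - 1 ^ 3) * Di) := by ring
    rw [h3]
    exact (h2.mul_right Di).neg_right
  have h4 : P ∣ Di ^ n - (E ^ 3 * Di) ^ n := h1.trans (sub_dvd_pow_sub_pow _ _ n)
  have h5 : D ^ n * Di ^ n = 1 := by rw [← mul_pow, hD, one_pow]
  have h6 : a - (E ^ 3 * Di) ^ n = (a * D ^ n - 1) * Di ^ n + (Di ^ n - (E ^ 3 * Di) ^ n) := by
    linear_combination (-a) * h5
  rw [h6]
  exact dvd_add (h.mul_right _) h4

theorem main : LSBasic → LSInj → Ord23 := by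
  intro hB hI p _ hp c hc A hA
  obtain ⟨-, -, -, hD, -⟩ := hB p ℤ_[p]
  obtain ⟨hinj, -, -⟩ := hI p
  have h1 : (p : LaurentSeries ℤ_[p]) ∣ aeval (jj ℤ_[p]) A - jj ℤ_[p] ^ (p - 1) :=
    key _ _ _ _ _ (p - 1) (q4_dvd p hp) hD hA
  have h2 : (p : LaurentSeries ℤ_[p]) ^ 1 ∣ aeval (jj ℤ_[p]) (A - X ^ (p - 1)) := by
    rw [pow_one, map_sub, map_pow, aeval_X]
    exact h1
  obtain ⟨G, hG⟩ := hinj 1 _ h2
  have h3 : A.eval c = c ^ (p - 1) + p * G.eval c := by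
    have h4 := congrArg (Polynomial.eval c) hG
    rw [pow_one, eval_sub, eval_pow, eval_X, eval_mul, eval_natCast] at h4
    linear_combination h4
  by_contra hn
  have h5 : ¬ IsUnit ((p : ℤ_[p]) * (-G.eval c)) := by
    intro h
    exact PadicInt.prime_p.not_isUnit (isUnit_of_mul_isUnit_left h)
  have h6 : c ^ (p - 1) ∈ nonunits ℤ_[p] := by
    have h7 := IsLocalRing.nonunits_add hn h5
    rw [h3] at h7
    have h8 : c ^ (p - 1) + p * G.eval c + (p : ℤ_[p]) * (-G.eval c) = c ^ (p - 1) := by ring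
    rwa [h8] at h7
  exact h6 (hc.pow _)

end Pool.Agent.H154.OCOrd23
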