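import Pool.Agent.H558.PP.TStm

set_option autoImplicit false

/-!
# T1: repeated trials (helper154, for helper558)
-/

namespace Pool.Agent.H154.PPT1

open PowerSeries Finset Pool.Agent.R836.PP Pool.Agent.H558.KK Pool.Agent.H558.PP
open Pool.Agent.K7.H72.MT hiding W few dis DD dis_stable dis_vary DD_stable DD_sum DD_block few_bad
  dis_le DD_le base count

theorem sq_card (k : ℕ) : (range (2 ^ k) ×ˢ range (2 ^ k)).card = 4 ^ k := by
  rw [card_product, card_range, ← mul_pow]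
  norm_num

open scoped Classical in
theorem XX_le (k T m T' : ℕ) (U : S) : XX k T m T' U ≤ 4 ^ k := by
  unfold XX
  exact (card_filter_le _ _).trans (le_of_eq (sq_card k))

open scoped Classical in
/-- the points of `XX` over `ν` -/
theorem fib (hN1 : S_N1) (k1 l' m' T T' : ℕ) (U : S) (ν : ℕ × ℕ) :
    #{p ∈ {p ∈ range (2 ^ (k1 + l')) ×ˢ range (2 ^ (k1 + l')) |
        ¬ Gv T (node P2 (k1 + l') p.2 p.1 U) ∧
        Gv T' (node P2 (k1 + m') (p.2 % 2 ^ (k1 + m')) (p.1 % 2 ^ (k1 + m')) U)} |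
      (p.1 % 2 ^ k1, p.2 % 2 ^ k1) = ν} ≤ XX l' T m' T' (node P2 k1 ν.2 ν.1 U) := by
  unfold XX
  apply card_le_card_of_injOn (fun p => (p.1 / 2 ^ k1, p.2 / 2 ^ k1))
  · intro p hp
    rw [mem_coe, mem_filter, mem_filter, mem_product, mem_range, mem_range] at hp
    obtain ⟨⟨⟨h1, h2⟩, h3, h4⟩, h5⟩ := hp
    have h51 : p.1 % 2 ^ k1 = ν.1 := congrArg Prod.fst h5
    have h52 : p.2 % 2 ^ k1 = ν.2 := congrArg Prod.snd h5
    rw [mem_coe, mem_filter, mem_product, mem_range, mem_range]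
    refine ⟨⟨?_, ?_⟩, ?_, ?_⟩
    · apply Nat.div_lt_of_lt_mul
      rw [← pow_add]
      exact h1
    · apply Nat.div_lt_of_lt_mul
      rw [← pow_add]
      exact h2
    · rw [(hN1 P2 k1 l' p.2 p.1 U).1, h51, h52] at h3
      exact h3
    · have e1 : ∀ x : ℕ, x % 2 ^ (k1 + m') / 2 ^ k1 = x / 2 ^ k1 % 2 ^ m' := by
        intro x
        rw [pow_add, Nat.mod_mul_right_div_self]
      have e2 : ∀ x : ℕ, x % 2 ^ (k1 + m') % 2 ^ k1 = x % 2 ^ k1 := by
        intro x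
        exact Nat.mod_mod_of_dvd _ (pow_dvd_pow 2 (Nat.le_add_right _ _))
      rw [(hN1 P2 k1 m' (p.2 % 2 ^ (k1 + m')) (p.1 % 2 ^ (k1 + m')) U).1, e1, e1, e2, e2, h51, h52]
        at h4
      exact h4
  · intro p hp p' hp' h
    rw [mem_coe, mem_filter] at hp hp'
    have h1 : p.1 / 2 ^ k1 = p'.1 / 2 ^ k1 := congrArg Prod.fst h
    have h2 : p.2 / 2 ^ k1 = p'.2 / 2 ^ k1 := congrArg Prod.snd h
    have h51 : p.1 % 2 ^ k1 = ν.1 := congrArg Prod.fst hp.2
    have h52 : p.2 % 2 ^ k1 = ν.2 := congrArg Prod.snd hp.2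
    have h61 : p'.1 % 2 ^ k1 = ν.1 := congrArg Prod.fst hp'.2
    have h62 : p'.2 % 2 ^ k1 = ν.2 := congrArg Prod.snd hp'.2
    apply Prod.ext
    · rw [← Nat.div_add_mod p.1 (2 ^ k1), ← Nat.div_add_mod p'.1 (2 ^ k1), h1, h51, h61]
    · rw [← Nat.div_add_mod p.2 (2 ^ k1), ← Nat.div_add_mod p'.2 (2 ^ k1), h2, h52, h62]

open scoped Classical in
theorem step (hN1 : S_N1) (hN3 : S_N3) (w l' m' v T R E : ℕ) (hR : 1 ≤ R) (hE : 1 ≤ E)
    (hm : m' ≤ l') (hT : v + 4 * 8 ^ (2 * w + l') ≤ T) (hP : P1 (2 * w + l') w R E) (a : ℝ)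
    (ha : 0 ≤ a) (hI : ∀ U : S, (XX l' T m' (2 ^ (l' - m') * v) U : ℝ) ≤ (a + 1 / E) * 4 ^ l')
    (U : S) : (XX (2 * w + l') T (2 * w + m') (2 ^ (l' - m') * v) U : ℝ) ≤
      (a * (1 - 1 / (16 * (R : ℝ) ^ 2)) + 1 / E) * 4 ^ (2 * w + l') := by
  have hR0 : (0 : ℝ) < R := by exact_mod_cast hR
  have hE0 : (0 : ℝ) < E := by exact_mod_cast hE
  have hR1 : (1 : ℝ) ≤ R := by exact_mod_cast hR
  have hq : 0 ≤ 1 - 1 / (16 * (R : ℝ) ^ 2) := by
    rw [sub_nonneg, div_le_one (by positivity)]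
    nlinarith
  by_cases hU : Gv (2 ^ (2 * w + l') * v) U
  · have h1 := hP (2 ^ (2 * w + l') * v) (v + 4 * 8 ^ (2 * w + l')) (by
      have e : (8 : ℕ) ^ (2 * w + l') = (2 ^ (2 * w + l')) ^ 3 := by
        rw [show (8 : ℕ) = 2 ^ 3 by norm_num, ← pow_mul, ← pow_mul, mul_comm]
      rw [e]
      apply le_of_eq
      ring) U hU
    set G1 := {ν ∈ range (2 ^ (2 * w)) ×ˢ range (2 ^ (2 * w)) |
      E * #{p ∈ range (2 ^ (2 * w + l')) ×ˢ range (2 ^ (2 * w + l')) |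
        p.1 % 2 ^ (2 * w) = ν.1 ∧ p.2 % 2 ^ (2 * w) = ν.2 ∧
        ¬ Gv (v + 4 * 8 ^ (2 * w + l')) (node P2 (2 * w + l') p.2 p.1 U)} ≤
          4 ^ (2 * w + l' - 2 * w)} with hG1
    set A := {p ∈ range (2 ^ (2 * w + l')) ×ˢ range (2 ^ (2 * w + l')) |
        ¬ Gv T (node P2 (2 * w + l') p.2 p.1 U) ∧
        Gv (2 ^ (l' - m') * v)
          (node P2 (2 * w + m') (p.2 % 2 ^ (2 * w + m')) (p.1 % 2 ^ (2 * w + m')) U)} with hA
    have hXX : XX (2 * w + l') T (2 * w + m') (2 ^ (l' - m') * v) U = #A := rfl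
    have hsum : #A = ∑ ν ∈ range (2 ^ (2 * w)) ×ˢ range (2 ^ (2 * w)),
        #{p ∈ A | (p.1 % 2 ^ (2 * w), p.2 % 2 ^ (2 * w)) = ν} := by
      apply card_eq_sum_card_fiberwise
      intro p _
      rw [mem_coe, mem_product, mem_range, mem_range]
      exact ⟨Nat.mod_lt _ (by positivity), Nat.mod_lt _ (by positivity)⟩
    have hterm : ∀ ν ∈ range (2 ^ (2 * w)) ×ˢ range (2 ^ (2 * w)),
        (#{p ∈ A | (p.1 % 2 ^ (2 * w), p.2 % 2 ^ (2 * w)) = ν} : ℝ) ≤
          1 / E * 4 ^ l' + if ν ∈ G1 then 0 else a * 4 ^ l' := by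
      intro ν hν
      by_cases hg : ν ∈ G1
      · rw [if_pos hg, add_zero]
        have h2 := (mem_filter.1 hg).2
        have h3 : #{p ∈ A | (p.1 % 2 ^ (2 * w), p.2 % 2 ^ (2 * w)) = ν} ≤
            #{p ∈ range (2 ^ (2 * w + l')) ×ˢ range (2 ^ (2 * w + l')) |
              p.1 % 2 ^ (2 * w) = ν.1 ∧ p.2 % 2 ^ (2 * w) = ν.2 ∧
              ¬ Gv (v + 4 * 8 ^ (2 * w + l')) (node P2 (2 * w + l') p.2 p.1 U)} := by
          apply card_le_card
          intro p hp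
          rw [mem_filter, hA, mem_filter] at hp
          rw [mem_filter]
          exact ⟨hp.1.1, congrArg Prod.fst hp.2, congrArg Prod.snd hp.2,
            fun h => hp.1.2.1 (h.mono hT)⟩
        have e : 2 * w + l' - 2 * w = l' := by omega
        rw [e] at h2
        have h4 : E * #{p ∈ A | (p.1 % 2 ^ (2 * w), p.2 % 2 ^ (2 * w)) = ν} ≤ 4 ^ l' :=
          (Nat.mul_le_mul_left _ h3).trans h2
        have h5 : (E : ℝ) * (#{p ∈ A | (p.1 % 2 ^ (2 * w), p.2 % 2 ^ (2 * w)) = ν} : ℝ) ≤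
            4 ^ l' := by exact_mod_cast h4
        rw [one_div, inv_mul_eq_div, le_div_iff₀ hE0]
        linarith
      · rw [if_neg hg]
        have h2 := fib hN1 (2 * w) l' m' T (2 ^ (l' - m') * v) U ν
        have h3 : (#{p ∈ A | (p.1 % 2 ^ (2 * w), p.2 % 2 ^ (2 * w)) = ν} : ℝ) ≤
            XX l' T m' (2 ^ (l' - m') * v) (node P2 (2 * w) ν.2 ν.1 U) := by
          exact_mod_cast h2
        refine (h3.trans (hI _)).trans (le_of_eq ?_)
        ring
    have hcard : (4 : ℝ) ^ (2 * w) ≤ 16 * (R : ℝ) ^ 2 * #G1 := by exact_mod_cast h1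
    have hG1sub : G1 ⊆ range (2 ^ (2 * w)) ×ˢ range (2 ^ (2 * w)) := filter_subset _ _
    have hsum2 : ∑ ν ∈ range (2 ^ (2 * w)) ×ˢ range (2 ^ (2 * w)),
        (1 / (E : ℝ) * 4 ^ l' + if ν ∈ G1 then 0 else a * 4 ^ l') =
        4 ^ (2 * w) * (1 / (E : ℝ) * 4 ^ l') + (4 ^ (2 * w) - #G1) * (a * 4 ^ l') := by
      have e1 : ∀ ν : ℕ × ℕ, (if ν ∈ G1 then (0 : ℝ) else a * 4 ^ l') =
          a * 4 ^ l' - if ν ∈ G1 then a * 4 ^ l' else 0 := by
        intro ν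
        split_ifs
        · ring
        · ring
      rw [sum_add_distrib, sum_const, sq_card, sum_congr rfl fun ν _ => e1 ν, sum_sub_distrib,
        sum_const, sq_card, sum_ite_mem, inter_eq_right.2 hG1sub, sum_const, nsmul_eq_mul,
        nsmul_eq_mul, nsmul_eq_mul]
      push_cast
      ring
    rw [hXX, hsum]
    push_cast
    refine (sum_le_sum hterm).trans ?_
    rw [hsum2, pow_add]
    have h6 : (4 : ℝ) ^ (2 * w) - #G1 ≤ (1 - 1 / (16 * (R : ℝ) ^ 2)) * 4 ^ (2 * w) := by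
      have h7 : (4 : ℝ) ^ (2 * w) * (1 / (16 * (R : ℝ) ^ 2)) ≤ #G1 := by
        rw [mul_one_div, div_le_iff₀ (by positivity)]
        linarith
      linarith
    have h8 : 0 ≤ a * 4 ^ l' := by positivity
    have h9 := mul_le_mul_of_nonneg_right h6 h8
    refine (add_le_add le_rfl h9).trans (le_of_eq ?_)
    ring
  · have h0 : XX (2 * w + l') T (2 * w + m') (2 ^ (l' - m') * v) U = 0 := by
      unfold XX
      rw [card_eq_zero, filter_eq_empty_iff]
      rintro p _ ⟨-, h⟩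
      apply hU
      have h2 := hN3 _ _ _ _ _ h
      have e : 2 ^ (2 * w + m') * (2 ^ (l' - m') * v) = 2 ^ (2 * w + l') * v := by
        rw [← mul_assoc, ← pow_add]
        congr 2
        omega
      rw [e] at h2
      exact h2
    rw [h0]
    push_cast
    positivity

theorem t1 (hN1 : S_N1) (hN3 : S_N3) : S_T1 := by
  intro L w R E J hw hJ hR hE hP U v
  have hR0 : (0 : ℝ) < R := by exact_mod_cast hR
  have hE0 : (0 : ℝ) < E := by exact_mod_cast hE
  have hR1 : (1 : ℝ) ≤ R := by exact_mod_cast hR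
  have hq : 0 ≤ 1 - 1 / (16 * (R : ℝ) ^ 2) := by
    rw [sub_nonneg, div_le_one (by positivity)]
    nlinarith
  have key : ∀ J l : ℕ, J * (2 * w) ≤ l → l ≤ L → ∀ U : S,
      (XX l (v + 4 * 8 ^ L) (J * (2 * w)) (2 ^ (l - J * (2 * w)) * v) U : ℝ) ≤
        ((1 - 1 / (16 * (R : ℝ) ^ 2)) ^ J + 1 / E) * 4 ^ l := by
    intro J
    induction J with
    | zero =>
      intro l _ _ U
      have h1 : (XX l (v + 4 * 8 ^ L) (0 * (2 * w)) (2 ^ (l - 0 * (2 * w)) * v) U : ℝ) ≤ 4 ^ l := by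
        exact_mod_cast XX_le _ _ _ _ _
      refine h1.trans ?_
      rw [pow_zero]
      have h2 : (0 : ℝ) ≤ 1 / E * 4 ^ l := by positivity
      linarith
    | succ J ih =>
      intro l hl hlL U
      obtain ⟨l', rfl⟩ : ∃ l', l = 2 * w + l' := ⟨l - 2 * w, by
        have : 2 * w ≤ l := le_trans (by nlinarith) hl
        omega⟩
      have e1 : (J + 1) * (2 * w) = 2 * w + J * (2 * w) := by ring
      have hm : J * (2 * w) ≤ l' := by
        rw [e1] at hl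
        omega
      have e2 : 2 * w + l' - (2 * w + J * (2 * w)) = l' - J * (2 * w) := by omega
      rw [e1, e2, pow_succ]
      apply step hN1 hN3 w l' (J * (2 * w)) v (v + 4 * 8 ^ L) R E hR hE hm
      · have := Nat.pow_le_pow_right (show 0 < 8 by norm_num) hlL
        omega
      · exact hP _ (by omega) hlL
      · positivity
      · exact fun U => ih l' hm (by omega) U
  exact key J L hJ le_rfl U

end Pool.Agent.H154.PPT1
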