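import Pool.Agent.H340.RS.Stm4

/-!
# RSG P11: size of the radius (helper154, for helper340)
-/

set_option autoImplicit false

namespace Pool.Agent.H154.RSG

open Pool.Agent.H340.RS

theorem P11 : Pool.Agent.H340.RS.SP11 := by
  intro K u v hK hu hv
  set c : ℝ := 2 * |Real.log K| + u + v with hc
  have hc0 : 0 ≤ c := by positivity
  refine ⟨(2 * c + 16) * (16 * (c + 6) + 2) * K, by positivity, fun M Θ hM hΘ hle => ?_⟩
  have hM' : (1 : ℝ) ≤ M := by exact_mod_cast hM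
  have hΘ' : 8 * (M : ℝ) ≤ Θ := by exact_mod_cast hΘ
  have hΘ0 : (0 : ℝ) < Θ := by linarith
  set L : ℝ := Real.log (2 * M) with hL
  have hlog2 : (1 : ℝ) / 2 < Real.log 2 := by
    have := Real.log_two_gt_d9
    linarith
  have hL1 : 1 / 2 < L := by
    have h1 : Real.log 2 ≤ L := Real.log_le_log (by norm_num) (by linarith)
    linarith
  have hL0 : 0 < L := by linarith
  have hMu : (0 : ℝ) < (M : ℝ) ^ u := Real.rpow_pos_of_pos (by linarith) u
  have hLv : (0 : ℝ) < L ^ v := Real.rpow_pos_of_pos hL0 v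
  -- the logarithm
  have hlogΘ : Real.log Θ ≤ c * L := by
    have h1 : Real.log Θ ≤ Real.log (K * (M : ℝ) ^ u * L ^ v) := Real.log_le_log hΘ0 hle
    rw [Real.log_mul (by positivity) hLv.ne', Real.log_mul hK.ne' hMu.ne',
      Real.log_rpow (by linarith), Real.log_rpow hL0] at h1
    have h2 : Real.log M ≤ L := Real.log_le_log (by linarith) (by linarith)
    have h3 : Real.log L ≤ L := by
      have := Real.log_le_sub_one_of_pos hL0
      linarith
    have h4 : Real.log K ≤ 2 * |Real.log K| * L := by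
      have h5 := le_abs_self (Real.log K)
      have h6 := abs_nonneg (Real.log K)
      nlinarith
    have h7 : u * Real.log M ≤ u * L := mul_le_mul_of_nonneg_left h2 hu
    have h8 : v * Real.log L ≤ v * L := mul_le_mul_of_nonneg_left h3 hv
    rw [hc]
    linarith
  have ht : ((Nat.log 4 Θ : ℕ) : ℝ) ≤ c * L := by
    have hΘn : Θ ≠ 0 := by
      rintro rfl
      simp at hΘ0
    have h1 : ((4 ^ Nat.log 4 Θ : ℕ) : ℝ) ≤ Θ := by exact_mod_cast Nat.pow_log_le_self 4 hΘn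
    have h2 : Real.log ((4 ^ Nat.log 4 Θ : ℕ) : ℝ) ≤ Real.log Θ :=
      Real.log_le_log (by positivity) h1
    push_cast at h2
    rw [Real.log_pow] at h2
    have h4 : (1 : ℝ) ≤ Real.log 4 := by
      have h5 : Real.log 4 = 2 * Real.log 2 := by
        rw [show (4 : ℝ) = 2 ^ 2 by norm_num, Real.log_pow]
        norm_num
      rw [h5]
      linarith
    have h6 : (0 : ℝ) ≤ (Nat.log 4 Θ : ℕ) := Nat.cast_nonneg _
    nlinarith
  have ht0 : (0 : ℝ) ≤ ((Nat.log 4 Θ : ℕ) : ℝ) := Nat.cast_nonneg _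
  push_cast
  generalize ((Nat.log 4 Θ : ℕ) : ℝ) = t at ht ht0
  have e1 : 2 * t + 8 ≤ (2 * c + 16) * L := by nlinarith
  have e2 : 16 * (t + 3) * (Θ : ℝ) + 2 * M ≤ (16 * (c + 6) + 2) * L * Θ := by
    have h1 : 16 * (t + 3) ≤ 16 * (c + 6) * L := by nlinarith
    have h2 : 16 * (t + 3) * (Θ : ℝ) ≤ 16 * (c + 6) * L * Θ :=
      mul_le_mul_of_nonneg_right h1 hΘ0.le
    have h3 : 2 * (M : ℝ) ≤ 2 * L * Θ := by nlinarith
    linarith
  have e3 : (2 * t + 8) * (16 * (t + 3) * (Θ : ℝ) + 2 * M) ≤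
      ((2 * c + 16) * L) * ((16 * (c + 6) + 2) * L * Θ) :=
    mul_le_mul e1 e2 (by positivity) (by positivity)
  have e4 : (M : ℝ) ^ (u + 1) = (M : ℝ) ^ u * M := by
    rw [Real.rpow_add (by linarith), Real.rpow_one]
  have e5 : L ^ (v + 2) = L ^ v * L ^ 2 := by
    rw [Real.rpow_add hL0, Real.rpow_two]
  calc (M : ℝ) * ((2 * t + 8) * (16 * (t + 3) * Θ + 2 * M)) ≤
      M * (((2 * c + 16) * L) * ((16 * (c + 6) + 2) * L * Θ)) :=
        mul_le_mul_of_nonneg_left e3 (by linarith)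
    _ = (M * (2 * c + 16) * (16 * (c + 6) + 2) * L ^ 2) * Θ := by ring
    _ ≤ (M * (2 * c + 16) * (16 * (c + 6) + 2) * L ^ 2) * (K * (M : ℝ) ^ u * L ^ v) :=
        mul_le_mul_of_nonneg_left hle (by positivity)
    _ = (2 * c + 16) * (16 * (c + 6) + 2) * K * (M : ℝ) ^ (u + 1) * L ^ (v + 2) := by
        rw [e4, e5]
        ring

end Pool.Agent.H154.RSG
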