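import Pool.Agent.H812.Tm.Spec2

/-! # Project TM (helper812): `STerm` (helper154) -/

set_option autoImplicit false

open Real Filter Topology
open scoped ContDiff

namespace Pool.Agent.H154.TmSTerm

open Pool.Agent.W811.Stu Pool.Agent.H812.Tm

lemma U_open : IsOpen U := by
  have : U = (fun v : ℝ × ℝ => |v.1|) ⁻¹' Set.Iio 1 := rfl
  rw [this]
  exact isOpen_Iio.preimage (by fun_prop)

lemma mem_U {v : ℝ × ℝ} {r : ℝ} (hr : r < 1) (hv : |v.1| ≤ r) : v ∈ U := lt_of_le_of_lt hv hr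

lemma norm_le (L : ℝ × ℝ →L[ℝ] ℝ) : ‖L‖ ≤ |L (1, 0)| + |L (0, 1)| := by
  apply L.opNorm_le_bound (by positivity)
  intro w
  have h : L w = w.1 * L (1, 0) + w.2 * L (0, 1) := by
    have h0 : w = w.1 • ((1 : ℝ), (0 : ℝ)) + w.2 • ((0 : ℝ), (1 : ℝ)) := by
      ext <;> simp
    conv_lhs => rw [h0]
    rw [map_add, map_smul, map_smul]
    rfl
  rw [h, Real.norm_eq_abs]
  have h1 : |w.1| ≤ ‖w‖ := norm_fst_le w
  have h2 : |w.2| ≤ ‖w‖ := norm_snd_le w
  calc |w.1 * L (1, 0) + w.2 * L (0, 1)| ≤ |w.1| * |L (1, 0)| + |w.2| * |L (0, 1)| := by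
        rw [← abs_mul, ← abs_mul]; exact abs_add_le _ _
    _ ≤ ‖w‖ * |L (1, 0)| + ‖w‖ * |L (0, 1)| :=
        add_le_add (mul_le_mul_of_nonneg_right h1 (abs_nonneg _))
          (mul_le_mul_of_nonneg_right h2 (abs_nonneg _))
    _ = (|L (1, 0)| + |L (0, 1)|) * ‖w‖ := by ring

lemma norm_fderiv_le (f : ℝ × ℝ → ℝ) (v : ℝ × ℝ) : ‖fderiv ℝ f v‖ ≤ |dz f v| + |dt f v| :=
  norm_le _

/-! ### points of the surface -/

lemma onS_ze (δ : ℝ) {v : ℝ × ℝ} (hv : v ∈ U) : OnS δ (ze δ v) := by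
  have h1 : |v.1| < 1 := hv
  have h2 : v.1 ^ 2 < 1 := by
    rw [← sq_abs]
    nlinarith [abs_nonneg v.1]
  have h3 : 0 < 1 - v.1 ^ 2 := by linarith
  have hB : Bf δ v.1 ^ 2 * (1 - v.1 ^ 2) = 1 + δ ^ 2 - v.1 ^ 2 := by
    unfold Bf
    rw [Real.sq_sqrt (div_nonneg (by nlinarith [sq_nonneg δ]) h3.le)]
    field_simp
  have hs : √(1 - v.1 ^ 2) ^ 2 = 1 - v.1 ^ 2 := Real.sq_sqrt h3.le
  have hcs := Real.sin_sq_add_cos_sq v.2
  unfold OnS ze
  simp only
  set B := Bf δ v.1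
  set s := √(1 - v.1 ^ 2)
  set z := v.1
  set c := cos v.2
  set t := sin v.2
  have e : (B * (z * c + s * t)) ^ 2 + (B * c) ^ 2 + z ^ 2
      - 2 * (B * (z * c + s * t)) * (B * c) * z = B ^ 2 * (s ^ 2 * t ^ 2 + c ^ 2 * (1 - z ^ 2))
        + z ^ 2 := by ring
  rw [e, hs]
  have e2 : B ^ 2 * ((1 - z ^ 2) * t ^ 2 + c ^ 2 * (1 - z ^ 2)) + z ^ 2 =
      B ^ 2 * (1 - z ^ 2) * (t ^ 2 + c ^ 2) + z ^ 2 := by ring
  rw [e2, hB, hcs]
  ring

/-! ### cutoff functions -/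

lemma cut_one {κ : ℝ} {θ : ℝ → ℝ} (hθ : Cut κ θ) {x : ℝ} (hx : |x| ≤ 1) : deriv θ x = 0 := by
  have h : IsLocalMax θ x := by
    apply Filter.Eventually.of_forall
    intro y
    show θ y ≤ θ x
    rw [hθ.one x hx]
    exact hθ.le_one y
  exact h.deriv_eq_zero

lemma cut_zero {κ : ℝ} {θ : ℝ → ℝ} (hθ : Cut κ θ) {x : ℝ} (hx : κ ≤ |x|) : deriv θ x = 0 := by
  have h : IsLocalMin θ x := by
    apply Filter.Eventually.of_forall
    intro y
    show θ x ≤ θ y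
    rw [hθ.zero x hx]
    exact hθ.nonneg y
  exact h.deriv_eq_zero

lemma cut_bdd {κ : ℝ} {θ : ℝ → ℝ} (hθ : Cut κ θ) : ∃ C : ℝ, 0 ≤ C ∧ ∀ x, |deriv θ x| ≤ C := by
  have hc : Continuous (deriv θ) := hθ.smooth.continuous_deriv (by simp)
  obtain ⟨C, hC⟩ := (isCompact_Icc (a := -κ) (b := κ)).exists_bound_of_continuousOn
    hc.continuousOn
  refine ⟨max C 0, le_max_right _ _, fun x => ?_⟩
  by_cases hx : |x| ≤ κ
  · exact (hC x (abs_le.mp hx)).trans (le_max_left _ _)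
  · rw [cut_zero hθ (not_le.mp hx).le, abs_zero]
    exact le_max_right _ _

lemma cut_abs {κ : ℝ} {θ : ℝ → ℝ} (hθ : Cut κ θ) (x : ℝ) : |θ x| ≤ 1 := by
  rw [abs_of_nonneg (hθ.nonneg x)]
  exact hθ.le_one x

lemma cut_has {κ : ℝ} {θ : ℝ → ℝ} (hθ : Cut κ θ) {f : ℝ × ℝ → ℝ} {v : ℝ × ℝ}
    (hf : DifferentiableAt ℝ f v) :
    HasFDerivAt (fun w => θ (f w)) (deriv θ (f v) • fderiv ℝ f v) v := by
  have h1 : HasDerivAt θ (deriv θ (f v)) (f v) :=
    (hθ.smooth.differentiable (by simp)).differentiableAt.hasDerivAt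
  exact h1.comp_hasFDerivAt v hf.hasFDerivAt

/-! ### smoothness -/

lemma dz_cd {f : ℝ × ℝ → ℝ} (hf : ContDiffOn ℝ ∞ f U) {v : ℝ × ℝ} (hv : v ∈ U) :
    ContDiffAt ℝ 1 (dz f) v := by
  have h := hf.contDiffAt (U_open.mem_nhds hv)
  have h2 : ContDiffAt ℝ 1 (fderiv ℝ f) v := h.fderiv_right (by norm_cast)
  exact h2.clm_apply contDiffAt_const

lemma dt_cd {f : ℝ × ℝ → ℝ} (hf : ContDiffOn ℝ ∞ f U) {v : ℝ × ℝ} (hv : v ∈ U) :
    ContDiffAt ℝ 1 (dt f) v := by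
  have h := hf.contDiffAt (U_open.mem_nhds hv)
  have h2 : ContDiffAt ℝ 1 (fderiv ℝ f) v := h.fderiv_right (by norm_cast)
  exact h2.clm_apply contDiffAt_const

lemma sl_cd {f : ℝ × ℝ → ℝ} (hf : ContDiffOn ℝ ∞ f U) {v : ℝ × ℝ} (hv : v ∈ U)
    (hne : dt f v ≠ 0) : ContDiffAt ℝ 1 (sl f) v :=
  (dz_cd hf hv).neg.div (dt_cd hf hv) hne

/-- one term -/
noncomputable def GG (θ : ℝ → ℝ) (f g : ℝ × ℝ → ℝ) (v : ℝ × ℝ) : ℝ :=
  θ (f v) * θ (g v) * (sl g v - sl f v)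

/-- the class of level functions -/
structure GF (κ r L : ℝ) (f : ℝ × ℝ → ℝ) : Prop where
  sm : ContDiffOn ℝ ∞ f U
  ne : ∀ v ∈ U, |f v| ≤ κ → dt f v ≠ 0
  pb : ∀ v : ℝ × ℝ, |v.1| ≤ r → |f v| ≤ κ → PB L f v
  sl : ∀ v : ℝ × ℝ, |v.1| ≤ r → |f v| ≤ κ → |dt (sl f) v| ≤ L

lemma PB.mono {L L' : ℝ} (h : L ≤ L') {f : ℝ × ℝ → ℝ} {v : ℝ × ℝ} (hp : PB L f v) :
    PB L' f v where
  ne := hp.ne
  zz := hp.zz.trans (mul_le_mul_of_nonneg_right h (abs_nonneg _))
  tt := hp.tt.trans (mul_le_mul_of_nonneg_right h (sq_nonneg _))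

lemma GG_zero {κ : ℝ} {θ : ℝ → ℝ} (hθ : Cut κ θ) {f g : ℝ × ℝ → ℝ}
    (hf : ContDiffOn ℝ ∞ f U) (hg : ContDiffOn ℝ ∞ g U) {v : ℝ × ℝ} (hv : v ∈ U)
    (h : ¬ (|f v| ≤ κ ∧ |g v| ≤ κ)) : GG θ f g =ᶠ[𝓝 v] fun _ => 0 := by
  have key : ∀ {f : ℝ × ℝ → ℝ}, ContDiffOn ℝ ∞ f U → κ < |f v| → ∀ᶠ w in 𝓝 v, κ < |f w| := by
    intro f hf h
    have hc : ContinuousAt f v := (hf.contDiffAt (U_open.mem_nhds hv)).continuousAt
    exact hc.abs.eventually (lt_mem_nhds h)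
  by_cases h1 : |f v| ≤ κ
  · have h2 : κ < |g v| := not_le.mp fun h' => h ⟨h1, h'⟩
    filter_upwards [key hg h2] with w hw
    unfold GG
    rw [hθ.zero _ hw.le]
    ring
  · filter_upwards [key hf (not_le.mp h1)] with w hw
    unfold GG
    rw [hθ.zero _ hw.le]
    ring

lemma GG_cd {κ r L : ℝ} {θ : ℝ → ℝ} (hθ : Cut κ θ) {f g : ℝ × ℝ → ℝ}
    (hf : GF κ r L f) (hg : GF κ r L g) {v : ℝ × ℝ} (hv : v ∈ U) :
    ContDiffAt ℝ 1 (GG θ f g) v := by
  by_cases h : |f v| ≤ κ ∧ |g v| ≤ κ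
  · have h1 := sl_cd hf.sm hv (hf.ne v hv h.1)
    have h2 := sl_cd hg.sm hv (hg.ne v hv h.2)
    have hθ1 : ContDiff ℝ 1 θ := hθ.smooth.of_le (by norm_cast)
    have h3 : ContDiffAt ℝ 1 f v := (hf.sm.contDiffAt (U_open.mem_nhds hv)).of_le
      (by norm_cast)
    have h4 : ContDiffAt ℝ 1 g v := (hg.sm.contDiffAt (U_open.mem_nhds hv)).of_le
      (by norm_cast)
    have h5 : ContDiffAt ℝ 1 (fun w => θ (f w)) v := hθ1.contDiffAt.comp v h3
    have h6 : ContDiffAt ℝ 1 (fun w => θ (g w)) v := hθ1.contDiffAt.comp v h4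
    exact (h5.mul h6).mul (h2.sub h1)
  · exact (contDiffAt_const (c := (0 : ℝ))).congr_of_eventuallyEq (GG_zero hθ hf.sm hg.sm hv h)

/-- bounds for one term -/
lemma GG_bound (hP : SPair) {δ κ r L c0 : ℝ} (hδ : δ ≠ 0) (hκ : 1 < κ) (hκc : κ < cc δ)
    (hr : r < 1) (hL : 0 ≤ L) (hc0 : 0 < c0) {θ : ℝ → ℝ} (hθ : Cut κ θ) :
    ∃ C : ℝ, 0 < C ∧ ∀ f g : ℝ × ℝ → ℝ, GF κ r L f → GF κ r L g →
      (∀ v ∈ U, (jac f g v) ^ 2 * (1 - v.1 ^ 2) = δ ^ 2 + (1 - f v ^ 2) * (1 - g v ^ 2)) →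
      ∀ v : ℝ × ℝ, |v.1| ≤ r → |f v| ≤ κ → |g v| ≤ κ → c0 ≤ |dt f v| → c0 ≤ |dt g v| →
        |GG θ f g v| ≤ C / (|dt f v| * |dt g v|) ∧
        ‖fderiv ℝ (GG θ f g) v‖ ≤ C * (1 / |dt f v| + 1 / |dt g v|) := by
  obtain ⟨C, hC, hC2⟩ := hP δ κ r L hδ hκ.le hκc hr hL
  obtain ⟨Ct, hCt, hCt2⟩ := cut_bdd hθ
  refine ⟨C * (1 + (1 + 1 / c0)) + Ct * (C * (L + 1)), by positivity, ?_⟩
  intro f g hf hg hj v hv hfv hgv hf0 hg0
  have hvU : v ∈ U := mem_U hr hv
  obtain ⟨b1, b2, b3⟩ := hC2 f g hf.sm hg.sm hj v hv hfv hgv (hf.pb v hv hfv) (hg.pb v hv hgv)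
  have b4 := b3 c0 hc0 hf0 hg0 (hf.sl v hv hfv) (hg.sl v hv hgv)
  have pf : 0 < |dt f v| := lt_of_lt_of_le hc0 hf0
  have pg : 0 < |dt g v| := lt_of_lt_of_le hc0 hg0
  have hh : |sl g v - sl f v| ≤ C / (|dt f v| * |dt g v|) := by
    rw [le_div_iff₀ (by positivity)]
    exact b1
  constructor
  · unfold GG
    rw [abs_mul, abs_mul]
    have h1 : |θ (f v)| * |θ (g v)| ≤ 1 := mul_le_one₀ (cut_abs hθ _) (abs_nonneg _) (cut_abs hθ _)
    calc |θ (f v)| * |θ (g v)| * |sl g v - sl f v| ≤ 1 * |sl g v - sl f v| :=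
          mul_le_mul_of_nonneg_right h1 (abs_nonneg _)
      _ ≤ C / (|dt f v| * |dt g v|) := by rw [one_mul]; exact hh
      _ ≤ _ := by
          apply div_le_div_of_nonneg_right _ (by positivity)
          have : 0 ≤ C * (1 + 1 / c0) := by positivity
          have h3 : 0 ≤ Ct * (C * (L + 1)) := by positivity
          nlinarith
  · have hsf := sl_cd hf.sm hvU (hf.ne v hvU hfv)
    have hsg := sl_cd hg.sm hvU (hg.ne v hvU hgv)
    have df : DifferentiableAt ℝ f v :=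
      (hf.sm.contDiffAt (U_open.mem_nhds hvU)).differentiableAt (by simp)
    have dg : DifferentiableAt ℝ g v :=
      (hg.sm.contDiffAt (U_open.mem_nhds hvU)).differentiableAt (by simp)
    have dh : DifferentiableAt ℝ (fun w => sl g w - sl f w) v :=
      (hsg.sub hsf).differentiableAt (by simp)
    have H := ((cut_has hθ df).mul (cut_has hθ dg)).mul dh.hasFDerivAt
    have He : fderiv ℝ (GG θ f g) v = (θ (f v) * θ (g v)) • fderiv ℝ (fun w => sl g w - sl f w) v +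
        (sl g v - sl f v) • (θ (f v) • (deriv θ (g v) • fderiv ℝ g v) +
          θ (g v) • (deriv θ (f v) • fderiv ℝ f v)) := H.fderiv
    rw [He]
    have n1 : ‖fderiv ℝ f v‖ ≤ (L + 1) * |dt f v| := by
      have := norm_fderiv_le f v
      have h2 := (hf.pb v hv hfv).zz
      linarith
    have n2 : ‖fderiv ℝ g v‖ ≤ (L + 1) * |dt g v| := by
      have := norm_fderiv_le g v
      have h2 := (hg.pb v hv hgv).zz
      linarith
    have n3 : ‖fderiv ℝ (fun w => sl g w - sl f w) v‖ ≤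
        C * (1 + (1 + 1 / c0)) * (1 / |dt f v| + 1 / |dt g v|) := by
      have := norm_fderiv_le (fun w => sl g w - sl f w) v
      calc _ ≤ _ := this
        _ ≤ C * (1 + 1 / c0) * (1 / |dt f v| + 1 / |dt g v|) +
            C * (1 / |dt f v| + 1 / |dt g v|) := add_le_add b4 b2
        _ = _ := by ring
    have m1 : ‖(θ (f v) * θ (g v)) • fderiv ℝ (fun w => sl g w - sl f w) v‖ ≤
        C * (1 + (1 + 1 / c0)) * (1 / |dt f v| + 1 / |dt g v|) := by
      rw [norm_smul, Real.norm_eq_abs, abs_mul]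
      have h1 : |θ (f v)| * |θ (g v)| ≤ 1 :=
        mul_le_one₀ (cut_abs hθ _) (abs_nonneg _) (cut_abs hθ _)
      calc _ ≤ 1 * ‖fderiv ℝ (fun w => sl g w - sl f w) v‖ :=
            mul_le_mul_of_nonneg_right h1 (norm_nonneg _)
        _ ≤ _ := by rw [one_mul]; exact n3
    have m2 : ‖θ (f v) • (deriv θ (g v) • fderiv ℝ g v)‖ ≤ Ct * ((L + 1) * |dt g v|) := by
      rw [norm_smul, norm_smul, Real.norm_eq_abs, Real.norm_eq_abs]
      calc |θ (f v)| * (|deriv θ (g v)| * ‖fderiv ℝ g v‖) ≤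
            1 * (Ct * ((L + 1) * |dt g v|)) := by
            apply mul_le_mul (cut_abs hθ _) _ (by positivity) (by norm_num)
            exact mul_le_mul (hCt2 _) n2 (norm_nonneg _) hCt
        _ = _ := one_mul _
    have m3 : ‖θ (g v) • (deriv θ (f v) • fderiv ℝ f v)‖ ≤ Ct * ((L + 1) * |dt f v|) := by
      rw [norm_smul, norm_smul, Real.norm_eq_abs, Real.norm_eq_abs]
      calc |θ (g v)| * (|deriv θ (f v)| * ‖fderiv ℝ f v‖) ≤
            1 * (Ct * ((L + 1) * |dt f v|)) := by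
            apply mul_le_mul (cut_abs hθ _) _ (by positivity) (by norm_num)
            exact mul_le_mul (hCt2 _) n1 (norm_nonneg _) hCt
        _ = _ := one_mul _
    have m4 : ‖(sl g v - sl f v) • (θ (f v) • (deriv θ (g v) • fderiv ℝ g v) +
          θ (g v) • (deriv θ (f v) • fderiv ℝ f v))‖ ≤
        Ct * (C * (L + 1)) * (1 / |dt f v| + 1 / |dt g v|) := by
      rw [norm_smul, Real.norm_eq_abs]
      have h5 := (norm_add_le (θ (f v) • (deriv θ (g v) • fderiv ℝ g v))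
        (θ (g v) • (deriv θ (f v) • fderiv ℝ f v))).trans (add_le_add m2 m3)
      calc _ ≤ C / (|dt f v| * |dt g v|) *
            (Ct * ((L + 1) * |dt g v|) + Ct * ((L + 1) * |dt f v|)) :=
            mul_le_mul hh h5 (norm_nonneg _) (by positivity)
        _ = _ := by
            field_simp
    calc _ ≤ _ := norm_add_le _ _
      _ ≤ _ := add_le_add m1 m4
      _ = _ := by ring

/-! ### the level functions -/

lemma two_pow_half (j : ℕ) : (2 : ℝ) ^ ((j + 1) / 2) ≤ 2 * 2 ^ (j / 2) := by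
  have h : (j + 1) / 2 ≤ j / 2 + 1 := by omega
  calc (2 : ℝ) ^ ((j + 1) / 2) ≤ 2 ^ (j / 2 + 1) := pow_le_pow_right₀ (by norm_num) h
    _ = _ := by rw [pow_succ]; ring

/-- level functions of all digit sequences -/
lemma lev (hSl : SSlope) (hLag : SLag) (hLow : SLow) (hDt : SDt) {δ κ r : ℝ} (hδ : δ ≠ 0)
    (hκ : 1 < κ) (hκc : κ < cc δ) (hr : r < 1) :
    ∃ L c0 : ℝ, 0 ≤ L ∧ 0 < c0 ∧ ∀ d : ℕ → ℕ, (∀ k, 1 ≤ d k) → ∀ m, 2 ≤ m →
      ContDiffOn ℝ ∞ (Yf δ d m) U ∧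
      (∀ v ∈ U, |Yf δ d m v| ≤ κ → c0 * 2 ^ (m / 2) ≤ |dt (Yf δ d m) v|) ∧
      (∀ v : ℝ × ℝ, |v.1| ≤ r → |Yf δ d m v| ≤ κ → PB L (Yf δ d m) v) := by
  obtain ⟨C1, hC1, h1⟩ := hSl δ r hδ hr
  obtain ⟨c0, hc0, h2⟩ := hLow δ κ hδ (by linarith) hκc
  have hgap : 0 < cc δ - κ := by linarith
  refine ⟨max C1 (1 / (cc δ - κ)), c0, hC1.le.trans (le_max_left _ _), hc0, ?_⟩
  intro d hd m hm
  refine ⟨(hDt δ d m).1, fun v hv hY => h2 d hd m hm v hv hY, fun v hv hY => ?_⟩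
  have hvU := mem_U hr hv
  have h3 := h2 d hd m hm v hvU hY
  have h4 : 0 < |dt (Yf δ d m) v| := lt_of_lt_of_le (by positivity) h3
  refine ⟨abs_pos.mp h4, ?_, ?_⟩
  · exact (h1 d hd m hm v hv (lt_of_le_of_lt hY hκc)).trans
      (mul_le_mul_of_nonneg_right (le_max_left _ _) h4.le)
  · have h5 := hLag δ hδ d hd m hm v hvU (lt_of_le_of_lt hY hκc)
    have h6 : |dt (dt (Yf δ d m)) v| * (cc δ - κ) ≤ (dt (Yf δ d m) v) ^ 2 :=
      (mul_le_mul_of_nonneg_left (by linarith) (abs_nonneg _)).trans h5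
    have h7 : |dt (dt (Yf δ d m)) v| ≤ 1 / (cc δ - κ) * (dt (Yf δ d m) v) ^ 2 := by
      rw [one_div, inv_mul_eq_div, le_div_iff₀ hgap]
      exact h6
    exact h7.trans (mul_le_mul_of_nonneg_right (le_max_right _ _) (sq_nonneg _))

lemma cls (hSlT : SSlT) (hSl : SSlope) (hLag : SLag) (hLow : SLow) (hDt : SDt) {δ κ r : ℝ}
    (hδ : δ ≠ 0) (hκ : 1 < κ) (hκc : κ < cc δ) (hr : r < 1) {d : ℕ → ℕ} (hd : ∀ k, 1 ≤ d k) :
    ∃ L c1 : ℝ, 0 ≤ L ∧ 0 < c1 ∧
      (∀ j, 2 ≤ j → GF κ r L (Yf δ d j) ∧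
        ∀ v ∈ U, |Yf δ d j v| ≤ κ → c1 * 2 ^ (j / 2) ≤ |dt (Yf δ d j) v|) ∧
      (∀ j k, 3 ≤ j → k ≤ d j → GF κ r L (Tf δ d j k) ∧
        ∀ v ∈ U, |Tf δ d j k v| ≤ κ → c1 * 2 ^ (j / 2) ≤ |dt (Tf δ d j k) v|) := by
  obtain ⟨L, c0, hL, hc0, hlev⟩ := lev hSl hLag hLow hDt hδ hκ hκc hr
  obtain ⟨CT, hCT, hY, hT⟩ := hSlT δ κ r d hδ hκ hκc hr hd
  -- a general member
  have mk : ∀ (d' : ℕ → ℕ), (∀ k, 1 ≤ d' k) → ∀ m, 2 ≤ m →
      (∀ v : ℝ × ℝ, |v.1| ≤ r → |Yf δ d' m v| ≤ κ → |dt (sl (Yf δ d' m)) v| ≤ CT) →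
      GF κ r (max L CT) (Yf δ d' m) := by
    intro d' hd' m hm hs
    obtain ⟨h1, h2, h3⟩ := hlev d' hd' m hm
    refine ⟨h1, fun v hv hY => ?_, fun v hv hY => PB.mono (le_max_left _ _) (h3 v hv hY),
      fun v hv hY => (hs v hv hY).trans (le_max_right _ _)⟩
    have h4 := h2 v hv hY
    have h5 : 0 < |dt (Yf δ d' m) v| := lt_of_lt_of_le (by positivity) h4
    exact abs_pos.mp h5
  refine ⟨max L CT, c0 / 2, hL.trans (le_max_left _ _), by positivity, ?_, ?_⟩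
  · intro j hj
    refine ⟨mk d hd j hj (hY j hj), fun v hv h => ?_⟩
    have := (hlev d hd j hj).2.1 v hv h
    have h2 : (0 : ℝ) < 2 ^ (j / 2) := by positivity
    nlinarith
  · intro j k hj hk
    rcases Nat.eq_zero_or_pos k with rfl | hk0
    · obtain ⟨i, rfl⟩ : ∃ i, j = i + 1 := ⟨j - 1, by omega⟩
      have hs := hT (i + 1) 0 hj hk
      rw [Tf_zero] at hs ⊢
      refine ⟨mk d hd i (by omega) hs, fun v hv h => ?_⟩
      have h1 := (hlev d hd i (by omega)).2.1 v hv h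
      have h2 := two_pow_half i
      nlinarith
    · have hs := hT j k hj hk
      rw [Tf_eq] at hs ⊢
      have hd' := update_ge hd j hk0
      refine ⟨mk _ hd' (j + 1) (by omega) hs, fun v hv h => ?_⟩
      have h1 := (hlev _ hd' (j + 1) (by omega)).2.1 v hv h
      have h2 : (2 : ℝ) ^ (j / 2) ≤ 2 ^ ((j + 1) / 2) :=
        pow_le_pow_right₀ (by norm_num) (by omega)
      have h3 : (0 : ℝ) < 2 ^ (j / 2) := by positivity
      nlinarith

/-! ### sums over a run -/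

/-- the indices that contribute -/
noncomputable def SS (κ δ : ℝ) (d : ℕ → ℕ) (j : ℕ) (v : ℝ × ℝ) : Finset ℕ :=
  open scoped Classical in
  (Finset.range (d j)).filter fun k => |Tf δ d j k v| ≤ κ ∧ |Tf δ d j (k + 1) v| ≤ κ

lemma mem_SS {κ δ : ℝ} {d : ℕ → ℕ} {j : ℕ} {v : ℝ × ℝ} {k : ℕ} :
    k ∈ SS κ δ d j v ↔ k < d j ∧ |Tf δ d j k v| ≤ κ ∧ |Tf δ d j (k + 1) v| ≤ κ := by
  unfold SS
  rw [Finset.mem_filter, Finset.mem_range]

lemma card_SS (hWin : SWin) {δ κ : ℝ} (hδ : δ ≠ 0) (hκ : 1 < κ) (hκc : κ < cc δ) :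
    ∃ K : ℕ, ∀ (d : ℕ → ℕ) (j : ℕ) (v : ℝ × ℝ), v ∈ U → 1 < |Yf δ d j v| → |Yf δ d j v| ≤ κ →
      (SS κ δ d j v).card ≤ K + 1 := by
  obtain ⟨K, hK⟩ := hWin δ κ hδ hκ.le hκc
  refine ⟨K, fun d j v hv h1 h2 => ?_⟩
  rcases (SS κ δ d j v).eq_empty_or_nonempty with he | hne
  · rw [he]; simp
  · set a := (SS κ δ d j v).min' hne with ha
    have haS : a ∈ SS κ δ d j v := Finset.min'_mem _ _
    have hsub : SS κ δ d j v ⊆ Finset.Icc a (a + K) := by
      intro x hx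
      have hax : a ≤ x := Finset.min'_le _ _ hx
      rw [Finset.mem_Icc]
      refine ⟨hax, ?_⟩
      have hOn : OnS δ (orb d (ze δ v) j) := (onS_ze δ hv).orb d j
      exact (hK (orb d (ze δ v) j) a x hOn h1 hax (mem_SS.mp haS).2.1 (mem_SS.mp hx).2.1).2 h2
    calc _ ≤ (Finset.Icc a (a + K)).card := Finset.card_le_card hsub
      _ = K + 1 := by rw [Nat.card_Icc]; omega

lemma wsum (hRun : SRun) (hWin : SWin) {δ κ r c1 : ℝ}
    (hδ : δ ≠ 0) (hκ : 1 < κ) (hκc : κ < cc δ) (hr : r < 1) (hc1 : 0 < c1) {d : ℕ → ℕ}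
    (hd : ∀ k, 1 ≤ d k)
    (hlow : ∀ j k, 3 ≤ j → k ≤ d j → ∀ v ∈ U, |Tf δ d j k v| ≤ κ →
      c1 * 2 ^ (j / 2) ≤ |dt (Tf δ d j k) v|) :
    ∃ W : ℝ, 0 < W ∧ ∀ j, 3 ≤ j → ∀ v : ℝ × ℝ, |v.1| ≤ r → 1 < |Yf δ d j v| →
      (∑ k ∈ SS κ δ d j v, (1 / |dt (Tf δ d j k) v| + 1 / |dt (Tf δ d j (k + 1)) v|)) *
        2 ^ (j / 2) ≤ W := by
  obtain ⟨K, hK⟩ := card_SS hWin hδ hκ hκc
  obtain ⟨c2, hc2, hR⟩ := hRun δ κ hδ hκ hκc
  set c3 := min c1 c2 with hc3
  have hc3p : 0 < c3 := lt_min hc1 hc2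
  have hκ0 : 0 < κ := by linarith
  have hgeo : 0 < 1 - κ⁻¹ := by
    have : κ⁻¹ < 1 := inv_lt_one_of_one_lt₀ hκ
    linarith
  refine ⟨(K + 1) * (2 / c1) + 2 / c3 * (1 - κ⁻¹)⁻¹, by positivity, ?_⟩
  intro j hj v hv hY1
  have hvU := mem_U hr hv
  have h2j : (0 : ℝ) < 2 ^ (j / 2) := by positivity
  rw [Finset.sum_mul]
  by_cases hY2 : |Yf δ d j v| ≤ κ
  · have h1 : ∀ k ∈ SS κ δ d j v,
        (1 / |dt (Tf δ d j k) v| + 1 / |dt (Tf δ d j (k + 1)) v|) * 2 ^ (j / 2) ≤ 2 / c1 := by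
      intro k hk
      obtain ⟨hk1, hk2, hk3⟩ := mem_SS.mp hk
      have a1 := hlow j k hj hk1.le v hvU hk2
      have a2 := hlow j (k + 1) hj hk1 v hvU hk3
      have e : ∀ x : ℝ, c1 * 2 ^ (j / 2) ≤ x → 1 / x * 2 ^ (j / 2) ≤ 1 / c1 := by
        intro x hx
        have hx0 : 0 < x := lt_of_lt_of_le (by positivity) hx
        rw [div_mul_eq_mul_div, one_mul, div_le_div_iff₀ hx0 hc1]
        linarith
      have := e _ a1
      have := e _ a2
      have e3 : 2 / c1 = 1 / c1 + 1 / c1 := by ring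
      rw [add_mul, e3]
      linarith
    calc _ ≤ ∑ _k ∈ SS κ δ d j v, 2 / c1 := Finset.sum_le_sum h1
      _ = (SS κ δ d j v).card * (2 / c1) := by rw [Finset.sum_const, nsmul_eq_mul]
      _ ≤ (K + 1) * (2 / c1) := by
          apply mul_le_mul_of_nonneg_right _ (by positivity)
          exact_mod_cast hK d j v hvU hY1 hY2
      _ ≤ _ := by
          have : 0 ≤ 2 / c3 * (1 - κ⁻¹)⁻¹ := by positivity
          linarith
  · push Not at hY2
    -- lower bounds along the run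
    have low : ∀ k, k ≤ d j → |Tf δ d j k v| ≤ κ →
        c3 * κ ^ k * 2 ^ (j / 2) ≤ |dt (Tf δ d j k) v| := by
      intro k hk hT
      rcases Nat.eq_zero_or_pos k with rfl | hk0
      · have := hlow j 0 hj hk v hvU hT
        rw [pow_zero, mul_one]
        exact (mul_le_mul_of_nonneg_right (min_le_left _ _) h2j.le).trans this
      · have := hR d hd j k (by omega) hk0 v hvU hY2.le hT
        refine le_trans ?_ this
        apply mul_le_mul_of_nonneg_right _ h2j.le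
        exact mul_le_mul_of_nonneg_right (min_le_right _ _) (by positivity)
    have h1 : ∀ k ∈ SS κ δ d j v,
        (1 / |dt (Tf δ d j k) v| + 1 / |dt (Tf δ d j (k + 1)) v|) * 2 ^ (j / 2) ≤
          2 / c3 * κ⁻¹ ^ k := by
      intro k hk
      obtain ⟨hk1, hk2, hk3⟩ := mem_SS.mp hk
      have a1 := low k hk1.le hk2
      have a2 := low (k + 1) hk1 hk3
      have a3 : c3 * κ ^ k * 2 ^ (j / 2) ≤ |dt (Tf δ d j (k + 1)) v| := by
        refine le_trans ?_ a2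
        apply mul_le_mul_of_nonneg_right _ h2j.le
        apply mul_le_mul_of_nonneg_left _ hc3p.le
        exact pow_le_pow_right₀ hκ.le (by omega)
      have e : ∀ x : ℝ, c3 * κ ^ k * 2 ^ (j / 2) ≤ x →
          1 / x * 2 ^ (j / 2) ≤ 1 / c3 * κ⁻¹ ^ k := by
        intro x hx
        have hx0 : 0 < x := lt_of_lt_of_le (by positivity) hx
        rw [div_mul_eq_mul_div, one_mul, div_le_iff₀ hx0]
        have : 1 / c3 * κ⁻¹ ^ k * (c3 * κ ^ k * 2 ^ (j / 2)) = 2 ^ (j / 2) := by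
          rw [inv_pow]
          field_simp
        calc (2 : ℝ) ^ (j / 2) = 1 / c3 * κ⁻¹ ^ k * (c3 * κ ^ k * 2 ^ (j / 2)) := this.symm
          _ ≤ _ := mul_le_mul_of_nonneg_left hx (by positivity)
      have b1 := e _ a1
      have b2 := e _ a3
      have e3 : 2 / c3 * κ⁻¹ ^ k = 1 / c3 * κ⁻¹ ^ k + 1 / c3 * κ⁻¹ ^ k := by ring
      rw [add_mul, e3]
      linarith
    have hsum : ∑ k ∈ SS κ δ d j v, κ⁻¹ ^ k ≤ (1 - κ⁻¹)⁻¹ := by
      have hs : Summable fun k : ℕ => κ⁻¹ ^ k :=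
        summable_geometric_of_lt_one (by positivity) (by linarith)
      calc _ ≤ ∑' k : ℕ, κ⁻¹ ^ k := hs.sum_le_tsum _ fun k _ => by positivity
        _ = _ := tsum_geometric_of_lt_one (by positivity) (by linarith)
    calc _ ≤ ∑ k ∈ SS κ δ d j v, 2 / c3 * κ⁻¹ ^ k := Finset.sum_le_sum h1
      _ = 2 / c3 * ∑ k ∈ SS κ δ d j v, κ⁻¹ ^ k := by rw [Finset.mul_sum]
      _ ≤ 2 / c3 * (1 - κ⁻¹)⁻¹ := mul_le_mul_of_nonneg_left hsum (by positivity)
      _ ≤ _ := by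
          have : 0 ≤ (K + 1) * (2 / c1) := by positivity
          linarith

/-! ### the two summands -/

/-- the second summand -/
noncomputable def P2 (θ : ℝ → ℝ) (δ : ℝ) (d : ℕ → ℕ) (j : ℕ) (v : ℝ × ℝ) : ℝ :=
  (1 - θ (Yf δ d j v)) * ∑ k ∈ Finset.range (d j), GG θ (Tf δ d j k) (Tf δ d j (k + 1)) v

lemma Hf_eq (θ : ℝ → ℝ) (δ : ℝ) (d : ℕ → ℕ) (j : ℕ) :
    Hf θ δ d j = fun v => GG θ (Yf δ d j) (Yf δ d (j + 1)) v + P2 θ δ d j v := rfl

/-- sums over all the indices are sums over the contributing ones -/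
lemma sum_le_SS {κ δ : ℝ} {d : ℕ → ℕ} {j : ℕ} {v : ℝ × ℝ} (a b : ℕ → ℝ)
    (h0 : ∀ k, k ∉ SS κ δ d j v → k < d j → a k = 0) (h1 : ∀ k ∈ SS κ δ d j v, a k ≤ b k) :
    ∑ k ∈ Finset.range (d j), a k ≤ ∑ k ∈ SS κ δ d j v, b k := by
  have hsub : SS κ δ d j v ⊆ Finset.range (d j) := fun k hk =>
    Finset.mem_range.mpr (mem_SS.mp hk).1
  rw [← Finset.sum_subset hsub fun k hk hk' => h0 k hk' (Finset.mem_range.mp hk)]
  exact Finset.sum_le_sum h1

theorem tSTerm (hPair : SPair) (hSlT : SSlT) (hLag : SLag) (hSl : SSlope) (hLow : SLow)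
    (hRun : SRun) (hRev : SRev) (hBr : SBr) (_hAl : SAl) (hWin : SWin) (hDt : SDt) : STerm := by
  intro δ κ r d θ hδ hκ hκc hr hd hθ
  obtain ⟨L, c1, hL, hc1, hY, hT⟩ := cls hSlT hSl hLag hLow hDt hδ hκ hκc hr hd
  obtain ⟨W, hW, hWs⟩ := wsum hRun hWin (r := r) hδ hκ hκc hr hc1 hd
    (fun j k hj hk => (hT j k hj hk).2)
  obtain ⟨C, hC, hG⟩ := GG_bound hPair hδ hκ hκc hr hL hc1 hθ
  obtain ⟨CR, hCR, hR⟩ := hRev δ κ hδ (by linarith) hκc
  obtain ⟨Ct, hCt, hCt2⟩ := cut_bdd hθ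
  refine ⟨C / c1 / c1 + C * (2 / c1) + C / c1 * W + C * W + Ct * (L + 1) * CR * C * W + 1,
    by positivity, ?_⟩
  intro j hj
  -- smoothness
  have hcdA : ∀ v ∈ U, ContDiffAt ℝ 1 (GG θ (Yf δ d j) (Yf δ d (j + 1))) v := fun v hv =>
    GG_cd hθ (hY j (by omega)).1 (hY (j + 1) (by omega)).1 hv
  have hcdB : ∀ k < d j, ∀ v ∈ U, ContDiffAt ℝ 1 (GG θ (Tf δ d j k) (Tf δ d j (k + 1))) v :=
    fun k hk v hv => GG_cd hθ (hT j k hj hk.le).1 (hT j (k + 1) hj hk).1 hv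
  have hθ1 : ContDiff ℝ 1 θ := hθ.smooth.of_le (by norm_cast)
  have hcdC : ∀ v ∈ U, ContDiffAt ℝ 1 (fun w => 1 - θ (Yf δ d j w)) v := by
    intro v hv
    have h3 : ContDiffAt ℝ 1 (Yf δ d j) v :=
      (((hY j (by omega)).1.sm).contDiffAt (U_open.mem_nhds hv)).of_le (by norm_cast)
    exact contDiffAt_const.sub (hθ1.contDiffAt.comp v h3)
  have hcdD : ∀ v ∈ U, ContDiffAt ℝ 1 (fun w => ∑ k ∈ Finset.range (d j),
      GG θ (Tf δ d j k) (Tf δ d j (k + 1)) w) v := by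
    intro v hv
    exact ContDiffAt.sum fun k hk => hcdB k (Finset.mem_range.mp hk) v hv
  have hcdE : ∀ v ∈ U, ContDiffAt ℝ 1 (P2 θ δ d j) v := fun v hv => (hcdC v hv).mul (hcdD v hv)
  have hcd : ∀ v ∈ U, ContDiffAt ℝ 1 (Hf θ δ d j) v := fun v hv => by
    rw [Hf_eq]
    exact (hcdA v hv).add (hcdE v hv)
  refine ⟨fun v hv => (hcd v hv).contDiffWithinAt, ?_⟩
  intro v hv
  have hvU := mem_U hr hv
  have h2j : (0 : ℝ) < 2 ^ (j / 2) := by positivity
  have h2j1 : (1 : ℝ) ≤ 2 ^ (j / 2) := one_le_pow₀ (by norm_num)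
  have hc1' : c1 ≤ c1 * 2 ^ (j / 2) := by nlinarith
  -- inverse of a lower bound
  have inv1 : ∀ x : ℝ, c1 * 2 ^ (j / 2) ≤ x → 1 / x * 2 ^ (j / 2) ≤ 1 / c1 := by
    intro x hx
    have hx0 : 0 < x := lt_of_lt_of_le (by positivity) hx
    rw [div_mul_eq_mul_div, one_mul, div_le_div_iff₀ hx0 hc1]
    linarith
  -- first summand
  have A : |GG θ (Yf δ d j) (Yf δ d (j + 1)) v| * 2 ^ (j / 2) ≤ C / c1 / c1 ∧
      ‖fderiv ℝ (GG θ (Yf δ d j) (Yf δ d (j + 1))) v‖ * 2 ^ (j / 2) ≤ C * (2 / c1) := by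
    by_cases h : |Yf δ d j v| ≤ κ ∧ |Yf δ d (j + 1) v| ≤ κ
    · have l1 := (hY j (by omega)).2 v hvU h.1
      have l2' := (hY (j + 1) (by omega)).2 v hvU h.2
      have l2 : c1 * 2 ^ (j / 2) ≤ |dt (Yf δ d (j + 1)) v| := by
        refine le_trans ?_ l2'
        exact mul_le_mul_of_nonneg_left (pow_le_pow_right₀ (by norm_num) (by omega)) hc1.le
      have hbr : ∀ v ∈ U, (jac (Yf δ d j) (Yf δ d (j + 1)) v) ^ 2 * (1 - v.1 ^ 2) =
          δ ^ 2 + (1 - Yf δ d j v ^ 2) * (1 - Yf δ d (j + 1) v ^ 2) := by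
        intro v hv
        have := (hBr δ d j (d j) v hv).1
        rwa [Tf_last] at this
      obtain ⟨g1, g2⟩ := hG _ _ (hY j (by omega)).1 (hY (j + 1) (by omega)).1 hbr v hv h.1 h.2
        (hc1'.trans l1) (hc1'.trans l2)
      have p1 : 0 < |dt (Yf δ d j) v| := lt_of_lt_of_le (by positivity) l1
      have p2 : 0 < |dt (Yf δ d (j + 1)) v| := lt_of_lt_of_le (by positivity) l2
      have i1 := inv1 _ l1
      have i2 := inv1 _ l2
      constructor
      · calc _ ≤ C / (|dt (Yf δ d j) v| * |dt (Yf δ d (j + 1)) v|) * 2 ^ (j / 2) :=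
              mul_le_mul_of_nonneg_right g1 h2j.le
          _ = C * (1 / |dt (Yf δ d j) v|) * (1 / |dt (Yf δ d (j + 1)) v| * 2 ^ (j / 2)) := by
              field_simp
          _ ≤ C * (1 / c1) * (1 / c1) := by
              apply mul_le_mul _ i2 (by positivity) (by positivity)
              apply mul_le_mul_of_nonneg_left _ hC.le
              exact one_div_le_one_div_of_le hc1 (hc1'.trans l1)
          _ = _ := by ring
      · calc _ ≤ C * (1 / |dt (Yf δ d j) v| + 1 / |dt (Yf δ d (j + 1)) v|) * 2 ^ (j / 2) :=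
              mul_le_mul_of_nonneg_right g2 h2j.le
          _ = C * (1 / |dt (Yf δ d j) v| * 2 ^ (j / 2) +
                1 / |dt (Yf δ d (j + 1)) v| * 2 ^ (j / 2)) := by ring
          _ ≤ C * (1 / c1 + 1 / c1) := mul_le_mul_of_nonneg_left (add_le_add i1 i2) hC.le
          _ = _ := by ring
    · have hz := GG_zero hθ (hY j (by omega)).1.sm (hY (j + 1) (by omega)).1.sm hvU h
      have e1 : GG θ (Yf δ d j) (Yf δ d (j + 1)) v = 0 := hz.eq_of_nhds
      have e2 : fderiv ℝ (GG θ (Yf δ d j) (Yf δ d (j + 1))) v = 0 := by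
        rw [hz.fderiv_eq]
        simp
      rw [e1, e2]
      simp only [abs_zero, norm_zero, zero_mul]
      exact ⟨by positivity, by positivity⟩
  -- terms of the second summand
  have zeroB : ∀ k, k ∉ SS κ δ d j v → k < d j →
      GG θ (Tf δ d j k) (Tf δ d j (k + 1)) v = 0 ∧
      fderiv ℝ (GG θ (Tf δ d j k) (Tf δ d j (k + 1))) v = 0 := by
    intro k hk hkd
    have h : ¬ (|Tf δ d j k v| ≤ κ ∧ |Tf δ d j (k + 1) v| ≤ κ) := fun h => hk (mem_SS.mpr ⟨hkd, h⟩)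
    have hz := GG_zero hθ (hT j k hj hkd.le).1.sm (hT j (k + 1) hj hkd).1.sm hvU h
    refine ⟨hz.eq_of_nhds, ?_⟩
    rw [hz.fderiv_eq]
    simp
  have boundB : ∀ k ∈ SS κ δ d j v,
      |GG θ (Tf δ d j k) (Tf δ d j (k + 1)) v| ≤
        C / (|dt (Tf δ d j k) v| * |dt (Tf δ d j (k + 1)) v|) ∧
      ‖fderiv ℝ (GG θ (Tf δ d j k) (Tf δ d j (k + 1))) v‖ ≤
        C * (1 / |dt (Tf δ d j k) v| + 1 / |dt (Tf δ d j (k + 1)) v|) ∧
      c1 ≤ |dt (Tf δ d j k) v| ∧ c1 ≤ |dt (Tf δ d j (k + 1)) v| := by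
    intro k hk
    obtain ⟨hk1, hk2, hk3⟩ := mem_SS.mp hk
    have l1 := (hT j k hj hk1.le).2 v hvU hk2
    have l2 := (hT j (k + 1) hj hk1).2 v hvU hk3
    obtain ⟨g1, g2⟩ := hG _ _ (hT j k hj hk1.le).1 (hT j (k + 1) hj hk1).1
      (fun v hv => (hBr δ d j k v hv).2) v hv hk2 hk3 (hc1'.trans l1) (hc1'.trans l2)
    exact ⟨g1, g2, hc1'.trans l1, hc1'.trans l2⟩
  -- second summand
  have B : |P2 θ δ d j v| * 2 ^ (j / 2) ≤ C / c1 * W ∧
      ‖fderiv ℝ (P2 θ δ d j) v‖ * 2 ^ (j / 2) ≤ C * W + Ct * (L + 1) * CR * C * W := by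
    have dY : DifferentiableAt ℝ (Yf δ d j) v :=
      ((hY j (by omega)).1.sm.contDiffAt (U_open.mem_nhds hvU)).differentiableAt (by simp)
    have H1 : HasFDerivAt (fun w => 1 - θ (Yf δ d j w))
        (-(deriv θ (Yf δ d j v) • fderiv ℝ (Yf δ d j) v)) v :=
      (cut_has hθ dY).const_sub 1
    have H2 : HasFDerivAt (fun w => ∑ k ∈ Finset.range (d j),
        GG θ (Tf δ d j k) (Tf δ d j (k + 1)) w)
        (∑ k ∈ Finset.range (d j), fderiv ℝ (GG θ (Tf δ d j k) (Tf δ d j (k + 1))) v) v := by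
      apply HasFDerivAt.fun_sum
      intro k hk
      exact ((hcdB k (Finset.mem_range.mp hk) v hvU).differentiableAt (by simp)).hasFDerivAt
    have He : fderiv ℝ (P2 θ δ d j) v =
        (1 - θ (Yf δ d j v)) •
          (∑ k ∈ Finset.range (d j), fderiv ℝ (GG θ (Tf δ d j k) (Tf δ d j (k + 1))) v) +
        (∑ k ∈ Finset.range (d j), GG θ (Tf δ d j k) (Tf δ d j (k + 1)) v) •
          (-(deriv θ (Yf δ d j v) • fderiv ℝ (Yf δ d j) v)) := (H1.mul H2).fderiv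
    have hCW : 0 ≤ C * W := by positivity
    have hCW2 : 0 ≤ Ct * (L + 1) * CR * C * W := by positivity
    by_cases hY1 : |Yf δ d j v| ≤ 1
    · have e1 : P2 θ δ d j v = 0 := by
        unfold P2
        rw [hθ.one _ hY1]
        ring
      have e2 : fderiv ℝ (P2 θ δ d j) v = 0 := by
        rw [He, hθ.one _ hY1, cut_one hθ hY1]
        simp
      rw [e1, e2]
      simp only [abs_zero, norm_zero, zero_mul]
      exact ⟨by positivity, by positivity⟩
    · push Not at hY1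
      have hW1 := hWs j hj v hv hY1
      have hθb : |1 - θ (Yf δ d j v)| ≤ 1 := by
        rw [abs_le]
        have := hθ.nonneg (Yf δ d j v)
        have := hθ.le_one (Yf δ d j v)
        constructor <;> linarith
      -- sum of the absolute values of the terms
      have s1 : ∑ k ∈ Finset.range (d j), |GG θ (Tf δ d j k) (Tf δ d j (k + 1)) v| ≤
          ∑ k ∈ SS κ δ d j v, C / c1 *
            (1 / |dt (Tf δ d j k) v| + 1 / |dt (Tf δ d j (k + 1)) v|) := by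
        apply sum_le_SS
        · intro k hk hkd
          rw [(zeroB k hk hkd).1, abs_zero]
        · intro k hk
          obtain ⟨b1, -, b3, b4⟩ := boundB k hk
          have p1 : 0 < |dt (Tf δ d j k) v| := lt_of_lt_of_le hc1 b3
          have p2 : 0 < |dt (Tf δ d j (k + 1)) v| := lt_of_lt_of_le hc1 b4
          refine b1.trans ?_
          calc C / (|dt (Tf δ d j k) v| * |dt (Tf δ d j (k + 1)) v|) =
                C * (1 / |dt (Tf δ d j (k + 1)) v|) * (1 / |dt (Tf δ d j k) v|) := by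
                field_simp
            _ ≤ C * (1 / c1) * (1 / |dt (Tf δ d j k) v|) := by
                apply mul_le_mul_of_nonneg_right _ (by positivity)
                exact mul_le_mul_of_nonneg_left (one_div_le_one_div_of_le hc1 b4) hC.le
            _ = C / c1 * (1 / |dt (Tf δ d j k) v|) := by ring
            _ ≤ _ := by
                apply mul_le_mul_of_nonneg_left _ (by positivity)
                have : 0 ≤ 1 / |dt (Tf δ d j (k + 1)) v| := by positivity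
                linarith
      have s2 : ∑ k ∈ Finset.range (d j),
          ‖fderiv ℝ (GG θ (Tf δ d j k) (Tf δ d j (k + 1))) v‖ ≤
          ∑ k ∈ SS κ δ d j v, C *
            (1 / |dt (Tf δ d j k) v| + 1 / |dt (Tf δ d j (k + 1)) v|) := by
        apply sum_le_SS
        · intro k hk hkd
          rw [(zeroB k hk hkd).2, norm_zero]
        · intro k hk
          exact (boundB k hk).2.1
      rw [← Finset.mul_sum] at s1 s2
      constructor
      · have h1 : |P2 θ δ d j v| ≤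
            ∑ k ∈ Finset.range (d j), |GG θ (Tf δ d j k) (Tf δ d j (k + 1)) v| := by
          unfold P2
          rw [abs_mul]
          calc _ ≤ 1 * ∑ k ∈ Finset.range (d j), |GG θ (Tf δ d j k) (Tf δ d j (k + 1)) v| :=
                mul_le_mul hθb (Finset.abs_sum_le_sum_abs _ _) (abs_nonneg _) (by norm_num)
            _ = _ := one_mul _
        calc _ ≤ (C / c1 * ∑ k ∈ SS κ δ d j v,
              (1 / |dt (Tf δ d j k) v| + 1 / |dt (Tf δ d j (k + 1)) v|)) * 2 ^ (j / 2) :=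
              mul_le_mul_of_nonneg_right (h1.trans s1) h2j.le
          _ = C / c1 * ((∑ k ∈ SS κ δ d j v,
              (1 / |dt (Tf δ d j k) v| + 1 / |dt (Tf δ d j (k + 1)) v|)) * 2 ^ (j / 2)) := by
              rw [mul_assoc]
          _ ≤ _ := mul_le_mul_of_nonneg_left hW1 (by positivity)
      · -- the derivative
        have t1 : ‖(1 - θ (Yf δ d j v)) •
            (∑ k ∈ Finset.range (d j), fderiv ℝ (GG θ (Tf δ d j k) (Tf δ d j (k + 1))) v)‖ *
              2 ^ (j / 2) ≤ C * W := by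
          rw [norm_smul, Real.norm_eq_abs]
          have h1 : |1 - θ (Yf δ d j v)| * ‖∑ k ∈ Finset.range (d j),
              fderiv ℝ (GG θ (Tf δ d j k) (Tf δ d j (k + 1))) v‖ ≤
              1 * (C * ∑ k ∈ SS κ δ d j v,
              (1 / |dt (Tf δ d j k) v| + 1 / |dt (Tf δ d j (k + 1)) v|)) :=
            mul_le_mul hθb ((norm_sum_le _ _).trans s2) (norm_nonneg _) (by norm_num)
          calc _ ≤ _ := mul_le_mul_of_nonneg_right h1 h2j.le
            _ = C * ((∑ k ∈ SS κ δ d j v,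
              (1 / |dt (Tf δ d j k) v| + 1 / |dt (Tf δ d j (k + 1)) v|)) * 2 ^ (j / 2)) := by
              rw [one_mul, mul_assoc]
            _ ≤ _ := mul_le_mul_of_nonneg_left hW1 hC.le
        have t2 : ‖(∑ k ∈ Finset.range (d j), GG θ (Tf δ d j k) (Tf δ d j (k + 1)) v) •
            (-(deriv θ (Yf δ d j v) • fderiv ℝ (Yf δ d j) v))‖ * 2 ^ (j / 2) ≤
              Ct * (L + 1) * CR * C * W := by
          by_cases hY2 : κ ≤ |Yf δ d j v|
          · rw [cut_zero hθ hY2]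
            simp only [zero_smul, neg_zero, smul_zero, norm_zero, zero_mul]
            exact hCW2
          · push Not at hY2
            have nY : ‖fderiv ℝ (Yf δ d j) v‖ ≤ (L + 1) * |dt (Yf δ d j) v| := by
              have := norm_fderiv_le (Yf δ d j) v
              have h2 := ((hY j (by omega)).1.pb v hv hY2.le).zz
              linarith
            rw [norm_smul, norm_neg, norm_smul, Real.norm_eq_abs, Real.norm_eq_abs]
            have u1 : |∑ k ∈ Finset.range (d j), GG θ (Tf δ d j k) (Tf δ d j (k + 1)) v| *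
                |dt (Yf δ d j) v| ≤ CR * C * ∑ k ∈ SS κ δ d j v,
                (1 / |dt (Tf δ d j k) v| + 1 / |dt (Tf δ d j (k + 1)) v|) := by
              have u2 : ∑ k ∈ Finset.range (d j),
                  |GG θ (Tf δ d j k) (Tf δ d j (k + 1)) v| * |dt (Yf δ d j) v| ≤
                  ∑ k ∈ SS κ δ d j v, CR * C *
                    (1 / |dt (Tf δ d j k) v| + 1 / |dt (Tf δ d j (k + 1)) v|) := by
                apply sum_le_SS
                · intro k hk hkd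
                  rw [(zeroB k hk hkd).1, abs_zero, zero_mul]
                · intro k hk
                  obtain ⟨b1, -, b3, b4⟩ := boundB k hk
                  have p1 : 0 < |dt (Tf δ d j k) v| := lt_of_lt_of_le hc1 b3
                  have p2 : 0 < |dt (Tf δ d j (k + 1)) v| := lt_of_lt_of_le hc1 b4
                  have hr1 := hR d hd j (k + 1) (by omega) (by omega) v hvU (mem_SS.mp hk).2.2
                  calc _ ≤ C / (|dt (Tf δ d j k) v| * |dt (Tf δ d j (k + 1)) v|) *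
                        (CR * |dt (Tf δ d j (k + 1)) v|) :=
                        mul_le_mul b1 hr1 (abs_nonneg _) (by positivity)
                    _ = CR * C * (1 / |dt (Tf δ d j k) v|) := by
                        field_simp
                    _ ≤ _ := by
                        apply mul_le_mul_of_nonneg_left _ (by positivity)
                        have : 0 ≤ 1 / |dt (Tf δ d j (k + 1)) v| := by positivity
                        linarith
              rw [← Finset.mul_sum, ← Finset.sum_mul] at u2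
              exact (mul_le_mul_of_nonneg_right (Finset.abs_sum_le_sum_abs _ _)
                (abs_nonneg _)).trans u2
            set Sg := |∑ k ∈ Finset.range (d j), GG θ (Tf δ d j k) (Tf δ d j (k + 1)) v| with hSg
            have hSg0 : 0 ≤ Sg := abs_nonneg _
            calc Sg * (|deriv θ (Yf δ d j v)| * ‖fderiv ℝ (Yf δ d j) v‖) * 2 ^ (j / 2)
                ≤ Sg * (Ct * ((L + 1) * |dt (Yf δ d j) v|)) * 2 ^ (j / 2) := by
                  apply mul_le_mul_of_nonneg_right _ h2j.le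
                  apply mul_le_mul_of_nonneg_left _ hSg0
                  exact mul_le_mul (hCt2 _) nY (norm_nonneg _) hCt
              _ = Ct * (L + 1) * (Sg * |dt (Yf δ d j) v|) * 2 ^ (j / 2) := by ring
              _ ≤ Ct * (L + 1) * (CR * C * ∑ k ∈ SS κ δ d j v,
                (1 / |dt (Tf δ d j k) v| + 1 / |dt (Tf δ d j (k + 1)) v|)) * 2 ^ (j / 2) := by
                  apply mul_le_mul_of_nonneg_right _ h2j.le
                  exact mul_le_mul_of_nonneg_left u1 (by positivity)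
              _ = Ct * (L + 1) * CR * C * ((∑ k ∈ SS κ δ d j v,
                (1 / |dt (Tf δ d j k) v| + 1 / |dt (Tf δ d j (k + 1)) v|)) * 2 ^ (j / 2)) := by
                  ring
              _ ≤ _ := mul_le_mul_of_nonneg_left hW1 (by positivity)
        rw [He]
        calc _ ≤ _ := mul_le_mul_of_nonneg_right (norm_add_le _ _) h2j.le
          _ = _ := add_mul _ _ _
          _ ≤ _ := add_le_add t1 t2
  have hp1 : 0 ≤ C / c1 / c1 := by positivity
  have hp2 : 0 ≤ C * (2 / c1) := by positivity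
  have hp3 : 0 ≤ C / c1 * W := by positivity
  have hp4 : 0 ≤ C * W := by positivity
  have hp5 : 0 ≤ Ct * (L + 1) * CR * C * W := by positivity
  constructor
  · have h1 : |Hf θ δ d j v| ≤ |GG θ (Yf δ d j) (Yf δ d (j + 1)) v| + |P2 θ δ d j v| := by
      rw [Hf_eq]
      exact abs_add_le _ _
    calc _ ≤ (|GG θ (Yf δ d j) (Yf δ d (j + 1)) v| + |P2 θ δ d j v|) * 2 ^ (j / 2) :=
          mul_le_mul_of_nonneg_right h1 h2j.le
      _ ≤ C / c1 / c1 + C / c1 * W := by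
          rw [add_mul]
          exact add_le_add A.1 B.1
      _ ≤ _ := by linarith
  · have h1 : fderiv ℝ (Hf θ δ d j) v = fderiv ℝ (GG θ (Yf δ d j) (Yf δ d (j + 1))) v +
        fderiv ℝ (P2 θ δ d j) v := by
      rw [Hf_eq]
      exact fderiv_fun_add ((hcdA v hvU).differentiableAt (by simp))
        ((hcdE v hvU).differentiableAt (by simp))
    rw [h1]
    calc _ ≤ (‖fderiv ℝ (GG θ (Yf δ d j) (Yf δ d (j + 1))) v‖ + ‖fderiv ℝ (P2 θ δ d j) v‖) *
          2 ^ (j / 2) := mul_le_mul_of_nonneg_right (norm_add_le _ _) h2j.le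
      _ ≤ C * (2 / c1) + (C * W + Ct * (L + 1) * CR * C * W) := by
          rw [add_mul]
          exact add_le_add A.2 B.2
      _ ≤ _ := by linarith

end Pool.Agent.H154.TmSTerm
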